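import Mathlib

/-! merged from Basic -/

section

/-!
Basic facts on the extremal sequence `c = χ` (with the convention `c 0 = 0`).
-/

namespace Pool.Agent.Lib.MP_4856b2_nt

/-- `c` satisfies all the inequalities `(j+1) c_j + c_i ≥ (j+1) i` and each `c_i` (`i ≥ 1`) is tight. -/
structure IsChi (c : ℕ → ℕ) : Prop where
  zero : c 0 = 0
  ge : ∀ i j, (j + 1) * i ≤ c i + (j + 1) * c j
  eq : ∀ i, 1 ≤ i → ∃ j, j < i ∧ (j + 1) * i = c i + (j + 1) * c j

/-- the difference sequence `c s - c (s-1)` -/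
def dd (c : ℕ → ℕ) (s : ℕ) : ℕ := c s - c (s - 1)

/-- the breakpoints in index space -/
def II (c : ℕ → ℕ) (s : ℕ) : ℕ := c s + s * dd c s

/-- the breakpoints in value space -/
def YY (c : ℕ → ℕ) (s : ℕ) : ℕ := s * (s + 1) * dd c s

variable {c : ℕ → ℕ}

theorem IsChi.le_self (h : IsChi c) (i : ℕ) : i ≤ c i := by
  have := h.ge i 0
  simpa [h.zero] using this

theorem IsChi.lt_succ (h : IsChi c) (i : ℕ) : c i < c (i + 1) := by
  rcases Nat.eq_zero_or_pos i with rfl | hi
  · have := h.le_self 1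
    rw [h.zero]; simp only [zero_add]; omega
  · obtain ⟨j, _, hj⟩ := h.eq i hi
    have := h.ge (i + 1) j
    have h3 : (j + 1) * (i + 1) = (j + 1) * i + (j + 1) := by ring
    omega

theorem IsChi.strictMono (h : IsChi c) : StrictMono c := strictMono_nat_of_lt_succ h.lt_succ

theorem IsChi.convex (h : IsChi c) (i : ℕ) : 2 * c (i + 1) ≤ c i + c (i + 2) := by
  obtain ⟨j, _, hj⟩ := h.eq (i + 1) (by omega)
  have h1 := h.ge (i + 2) j
  have h2 := h.ge i j
  have h3 : (j + 1) * (i + 2) + (j + 1) * i = 2 * ((j + 1) * (i + 1)) := by ring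
  omega

theorem dd_zero : dd c 0 = 0 := by simp [dd]

theorem dd_succ (s : ℕ) : dd c (s + 1) = c (s + 1) - c s := by simp [dd]

theorem IsChi.c_succ (h : IsChi c) (s : ℕ) : c (s + 1) = c s + dd c (s + 1) := by
  have := h.lt_succ s
  rw [dd_succ]; omega

theorem IsChi.dd_pos (h : IsChi c) (s : ℕ) : 1 ≤ dd c (s + 1) := by
  have := h.lt_succ s
  rw [dd_succ]; omega

theorem IsChi.dd_le_succ (h : IsChi c) (s : ℕ) : dd c s ≤ dd c (s + 1) := by
  rcases s with _ | s
  · simp [dd_zero]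
  · have := h.convex s
    have h1 := h.c_succ s
    have h2 : c (s + 2) = c (s + 1) + dd c (s + 2) := h.c_succ (s + 1)
    show dd c (s + 1) ≤ dd c (s + 2)
    omega

theorem IsChi.dd_mono (h : IsChi c) : Monotone (dd c) := monotone_nat_of_le_succ h.dd_le_succ

/-- upper bound of an increment by the last difference -/
theorem IsChi.sub_le (h : IsChi c) (s k : ℕ) : c (s + k) ≤ c s + k * dd c (s + k) := by
  induction k with
  | zero => simp
  | succ k ih =>
    have h1 := h.c_succ (s + k)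
    have h2 := h.dd_le_succ (s + k)
    have e : s + (k + 1) = s + k + 1 := by ring
    rw [e]
    have h3 : k * dd c (s + k) ≤ k * dd c (s + k + 1) := Nat.mul_le_mul_left _ h2
    have h4 : (k + 1) * dd c (s + k + 1) = k * dd c (s + k + 1) + dd c (s + k + 1) := by ring
    omega

/-- lower bound of an increment by the first difference -/
theorem IsChi.le_sub (h : IsChi c) (s k : ℕ) : c s + k * dd c (s + 1) ≤ c (s + k) := by
  induction k with
  | zero => simp
  | succ k ih =>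
    have h1 := h.c_succ (s + k)
    have h2 : dd c (s + 1) ≤ dd c (s + k + 1) := h.dd_mono (by omega)
    have e : s + (k + 1) = s + k + 1 := by ring
    rw [e]
    have h4 : (k + 1) * dd c (s + 1) = k * dd c (s + 1) + dd c (s + 1) := by ring
    omega

theorem II_zero (h : IsChi c) : II c 0 = 0 := by simp [II, h.zero]

theorem YY_zero : YY c 0 = 0 := by simp [YY]

theorem IsChi.II_succ (h : IsChi c) (s : ℕ) : II c (s + 1) = c s + (s + 2) * dd c (s + 1) := by
  unfold II; rw [h.c_succ s]; ring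

theorem IsChi.II_lt_succ (h : IsChi c) (s : ℕ) : II c s < II c (s + 1) := by
  rw [h.II_succ]
  unfold II
  have h2 := h.dd_le_succ s
  have h3 := h.dd_pos s
  have h4 : s * dd c s ≤ s * dd c (s + 1) := Nat.mul_le_mul_left _ h2
  have h5 : (s + 2) * dd c (s + 1) = s * dd c (s + 1) + 2 * dd c (s + 1) := by ring
  omega

theorem IsChi.II_strictMono (h : IsChi c) : StrictMono (II c) :=
  strictMono_nat_of_lt_succ h.II_lt_succ

theorem IsChi.YY_lt_succ (h : IsChi c) (s : ℕ) : YY c s < YY c (s + 1) := by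
  unfold YY
  have h2 := h.dd_le_succ s
  have h3 := h.dd_pos s
  calc s * (s + 1) * dd c s ≤ s * (s + 1) * dd c (s + 1) := Nat.mul_le_mul_left _ h2
    _ < (s + 1) * (s + 1 + 1) * dd c (s + 1) := by
        apply Nat.mul_lt_mul_of_pos_right _ h3
        nlinarith

theorem IsChi.YY_strictMono (h : IsChi c) : StrictMono (YY c) :=
  strictMono_nat_of_lt_succ h.YY_lt_succ

/-- On `[I_j, I_{j+1}]` the line `j` is active. -/
theorem IsChi.line (h : IsChi c) (j i : ℕ) (h1 : II c j ≤ i) (h2 : i ≤ II c (j + 1)) :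
    (j + 1) * i = c i + (j + 1) * c j := by
  rcases Nat.eq_zero_or_pos i with rfl | hi
  · have : II c j = 0 := by omega
    have hj : j = 0 := by
      by_contra hne
      have := h.II_strictMono (Nat.pos_of_ne_zero hne)
      rw [II_zero h] at this; omega
    subst hj; simp [h.zero]
  obtain ⟨t, _, ht⟩ := h.eq i hi
  have hge := h.ge i j
  refine le_antisymm hge ?_
  -- it suffices that `(t+1)(i - c_t) ≤ (j+1)(i-c_j)`
  have key : (t + 1) * i + (j + 1) * c j ≤ (j + 1) * i + (t + 1) * c t := by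
    rcases Nat.lt_trichotomy t j with htj | htj | htj
    · obtain ⟨k, rfl⟩ := Nat.exists_eq_add_of_lt htj
      -- j = t + k + 1
      have a1 := h.sub_le t (k + 1)
      have e : t + (k + 1) = t + k + 1 := by ring
      rw [e] at a1
      unfold II at h1
      -- (j-t) i ≥ (j-t) (c_j + j d_j)
      have a2 : (k + 1) * (c (t + k + 1) + (t + k + 1) * dd c (t + k + 1)) ≤ (k + 1) * i :=
        Nat.mul_le_mul_left _ h1
      have a3 : (t + 1) * c (t + k + 1) ≤ (t + 1) * (c t + (k + 1) * dd c (t + k + 1)) :=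
        Nat.mul_le_mul_left _ a1
      have a4 : (t + 1) * ((k + 1) * dd c (t + k + 1)) ≤ (t + k + 1) * ((k + 1) * dd c (t + k + 1)) :=
        Nat.mul_le_mul_right _ (by omega)
      nlinarith
    · subst htj; omega
    · obtain ⟨k, rfl⟩ := Nat.exists_eq_add_of_lt htj
      -- t = j + k + 1
      have a1 := h.le_sub j (k + 1)
      have e : j + (k + 1) = j + k + 1 := by ring
      rw [e] at a1
      rw [h.II_succ] at h2
      have a2 : (k + 1) * i ≤ (k + 1) * (c j + (j + 2) * dd c (j + 1)) :=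
        Nat.mul_le_mul_left _ h2
      have a3 : (j + k + 1 + 1) * (c j + (k + 1) * dd c (j + 1)) ≤ (j + k + 1 + 1) * c (j + k + 1) :=
        Nat.mul_le_mul_left _ a1
      have a4 : (j + 2) * ((k + 1) * dd c (j + 1)) ≤ (j + k + 1 + 1) * ((k + 1) * dd c (j + 1)) :=
        Nat.mul_le_mul_right _ (by omega)
      nlinarith
  omega

/-- The generalised inverse of a strictly increasing `g` with `g 0 = 0`. -/
def inv (g : ℕ → ℕ) (y : ℕ) : ℕ := Nat.findGreatest (fun i => g i ≤ y) y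

theorem le_inv_iff {g : ℕ → ℕ} (hg : StrictMono g) (h0 : g 0 = 0) {i y : ℕ} :
    i ≤ inv g y ↔ g i ≤ y := by
  unfold inv
  constructor
  · intro hi
    have h1 : g (Nat.findGreatest (fun i => g i ≤ y) y) ≤ y :=
      Nat.findGreatest_spec (P := fun i => g i ≤ y) (Nat.zero_le y) (by simp [h0])
    exact le_trans (hg.monotone hi) h1
  · intro hi
    exact Nat.le_findGreatest (le_trans (hg.id_le i) hi) hi

theorem inv_lt_iff {g : ℕ → ℕ} (hg : StrictMono g) (h0 : g 0 = 0) {i y : ℕ} :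
    inv g y < i ↔ y < g i := by
  rw [← not_le, ← not_le, le_inv_iff hg h0]

theorem inv_spec {g : ℕ → ℕ} (hg : StrictMono g) (h0 : g 0 = 0) (y : ℕ) :
    g (inv g y) ≤ y ∧ y < g (inv g y + 1) :=
  ⟨(le_inv_iff hg h0).1 le_rfl, (inv_lt_iff hg h0).1 (Nat.lt_succ_self _)⟩

theorem inv_unique {g : ℕ → ℕ} (hg : StrictMono g) (h0 : g 0 = 0) {i y : ℕ}
    (h1 : g i ≤ y) (h2 : y < g (i + 1)) : inv g y = i := by
  have a := (le_inv_iff hg h0).2 h1
  have b := (inv_lt_iff hg h0).2 h2
  omega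

/-- every `i ≥ 1` lies in a cell `(I_j, I_{j+1}]`. -/
theorem IsChi.cell (h : IsChi c) (i : ℕ) (hi : 1 ≤ i) :
    ∃ j, II c j < i ∧ i ≤ II c (j + 1) ∧ (j + 1) * i = c i + (j + 1) * c j ∧ dd c i = j + 1 ∧ j < i := by
  obtain ⟨h1, h2⟩ := inv_spec h.II_strictMono (II_zero h) (i - 1)
  set j := inv (II c) (i - 1) with hj
  have e1 := h.line j i (by omega) (by omega)
  have e2 := h.line j (i - 1) (by omega) (by omega)
  refine ⟨j, by omega, by omega, e1, ?_, ?_⟩
  · obtain ⟨k, rfl⟩ : ∃ k, i = k + 1 := ⟨i - 1, by omega⟩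
    simp only [Nat.add_sub_cancel] at e2
    have := h.c_succ k
    have e3 : (j + 1) * (k + 1) = (j + 1) * k + (j + 1) := by ring
    omega
  · have : j ≤ II c j := h.II_strictMono.id_le j
    omega

/-- the counting function of `c` on a cell `[Y_j, Y_{j+1})` (lower bound). -/
theorem IsChi.count_ge (h : IsChi c) (j y : ℕ) (h1 : YY c j ≤ y) (h2 : y < YY c (j + 1)) :
    c (c j + y / (j + 1)) ≤ y := by
  have a1 : j * dd c j ≤ y / (j + 1) := by
    rw [Nat.le_div_iff_mul_le (by omega)]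
    unfold YY at h1
    calc j * dd c j * (j + 1) = j * (j + 1) * dd c j := by ring
      _ ≤ y := h1
  have a2 : y / (j + 1) < (j + 2) * dd c (j + 1) := by
    rw [Nat.div_lt_iff_lt_mul (by omega)]
    unfold YY at h2
    calc y < (j + 1) * (j + 1 + 1) * dd c (j + 1) := h2
      _ = (j + 2) * dd c (j + 1) * (j + 1) := by ring
  have e := h.line j (c j + y / (j + 1)) (by unfold II; omega) (by rw [h.II_succ]; omega)
  have a3 : (j + 1) * (y / (j + 1)) ≤ y := Nat.mul_div_le y (j + 1)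
  have a4 : (j + 1) * (c j + y / (j + 1)) = (j + 1) * c j + (j + 1) * (y / (j + 1)) := by ring
  omega

end Pool.Agent.Lib.MP_4856b2_nt

end

/-! merged from Table -/

section

/-!
Values of the extremal sequence for small indices.
-/

namespace Pool.Agent.Lib.MP_4856b2_nt

variable {c : ℕ → ℕ}

theorem IsChi.eq_sup (h : IsChi c) (i : ℕ) :
    c i = (Finset.range i).sup (fun j => (j + 1) * (i - c j)) := by
  rcases Nat.eq_zero_or_pos i with rfl | hi
  · simp [h.zero]
  apply le_antisymm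
  · obtain ⟨j, hj, e⟩ := h.eq i hi
    have h1 : c i = (j + 1) * (i - c j) := by
      rw [Nat.mul_sub]; omega
    rw [h1]
    exact Finset.le_sup (f := fun j => (j + 1) * (i - c j)) (Finset.mem_range.2 hj)
  · apply Finset.sup_le
    intro j _
    have := h.ge i j
    rw [Nat.mul_sub]; omega

/-- The values `c 0, …, c 131`. -/
def T : List ℕ := [0, 1, 2, 4, 6, 9, 12, 15, 18, 21, 24, 28, 32, 36, 40, 45, 50, 55, 60, 65, 70, 75, 80, 85, 90, 96, 102, 108, 114, 120, 126, 133, 140, 147, 154, 161, 168, 176, 184, 192, 200, 208, 216, 225, 234, 243, 252, 261, 270, 280, 290, 300, 310, 320, 330, 341, 352, 363, 374, 385, 396, 407, 418, 429, 440, 451, 462, 473, 484, 495, 506, 517, 528, 540, 552, 564, 576, 588, 600, 612, 624, 637, 650, 663, 676, 689, 702, 715, 728, 742, 756, 770, 784, 798, 812, 826, 840, 855, 870, 885, 900, 915, 930, 945, 960, 975, 990, 1005, 1020, 1035, 1050, 1065, 1080, 1095, 1110, 1125, 1140, 1155, 1170, 1185, 1200, 1216, 1232, 1248, 1264, 1280,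 1296, 1312, 1328, 1344, 1360, 1377]

def t (i : ℕ) : ℕ := T.getD i 0

theorem t_check : ∀ i < 132, (Finset.range i).sup (fun j => (j + 1) * (i - t j)) = t i := by
  decide +kernel

theorem IsChi.table (h : IsChi c) : ∀ i < 132, c i = t i := by
  intro i
  induction i using Nat.strong_induction_on with
  | _ i ih =>
    intro hi
    rw [h.eq_sup i, ← t_check i hi]
    apply Finset.sup_congr rfl
    intro j hj
    rw [Finset.mem_range] at hj
    rw [ih j hj (by omega)]

end Pool.Agent.Lib.MP_4856b2_nt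

end

/-! merged from Growth -/

section

/-!
Growth facts on the extremal sequence.
-/

namespace Pool.Agent.Lib.MP_4856b2_nt

variable {c : ℕ → ℕ}

def dt (i : ℕ) : ℕ := t i - t (i - 1)

theorem IsChi.dd_table (h : IsChi c) (i : ℕ) (hi : i < 132) : dd c i = dt i := by
  unfold dd dt; rw [h.table i hi, h.table (i - 1) (by omega)]

theorem IsChi.dd_succ_le (h : IsChi c) (j : ℕ) (hj : 1 ≤ j) : dd c (j + 1) ≤ dd c j + 1 := by
  obtain ⟨k, k1, k2, _, k4, _⟩ := h.cell j hj
  obtain ⟨l, l1, l2, _, l4, _⟩ := h.cell (j + 1) (by omega)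
  have h1 : II c (k + 1) < II c (k + 2) := h.II_lt_succ (k + 1)
  have h2 : II c l < II c (k + 2) := by omega
  have h3 : l < k + 2 := h.II_strictMono.lt_iff_lt.1 h2
  omega

theorem IsChi.V_of (h : IsChi c) {i j : ℕ} (h2 : i ≤ II c (j + 1))
    (h3 : (j + 1) * i = c i + (j + 1) * c j) (h4 : dd c i = j + 1)
    (h5 : (j + 2) * dd c (j + 1) ≤ 4 * c j) : 5 * c i ≤ 4 * (i * dd c i) := by
  rw [h.II_succ] at h2
  have h6 : i ≤ 5 * c j := by omega
  have h7 : (j + 1) * i ≤ (j + 1) * (5 * c j) := Nat.mul_le_mul_left _ h6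
  rw [h4]
  nlinarith

theorem IsChi.L_of {i j : ℕ} 
    (h3 : (j + 1) * i = c i + (j + 1) * c j) (h4 : dd c i = j + 1)
    (h5 : 9 * c j ≤ 4 * i) : 5 * (i * dd c i) ≤ 9 * c i := by
  have h7 : (j + 1) * (9 * c j) ≤ (j + 1) * (4 * i) := Nat.mul_le_mul_left _ h5
  rw [h4]
  nlinarith

theorem IsChi.U_of (h : IsChi c) {i j : ℕ} (h2 : i ≤ II c (j + 1))
    (h3 : (j + 1) * i = c i + (j + 1) * c j) (h4 : dd c i = j + 1)
    (h5 : (j + 2) * dd c (j + 1) ≤ 2 * c j) : 3 * c i ≤ 2 * (i * dd c i) := by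
  rw [h.II_succ] at h2
  have h6 : i ≤ 3 * c j := by omega
  have h7 : (j + 1) * i ≤ (j + 1) * (3 * c j) := Nat.mul_le_mul_left _ h6
  rw [h4]
  nlinarith

theorem star_check : ∀ j < 80, 6 ≤ j → (j + 2) * dt (j + 1) ≤ 2 * t j := by decide +kernel

theorem star4_check : ∀ j < 6, 1 ≤ j → (j + 2) * dt (j + 1) ≤ 4 * t j := by decide +kernel

theorem IsChi.L_of_V (h : IsChi c) {i j : ℕ} (h1 : II c j < i)
    (h3 : (j + 1) * i = c i + (j + 1) * c j) (h4 : dd c i = j + 1)
    (hV : 3 ≤ j → 5 * c j ≤ 4 * (j * dd c j)) : 5 * (i * dd c i) ≤ 9 * c i := by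
  apply IsChi.L_of h3 h4
  rcases Nat.lt_or_ge j 3 with hj | hj
  · have t0 := h.table 0 (by omega)
    have t1 := h.table 1 (by omega)
    have t2 := h.table 2 (by omega)
    have T0 : t 0 = 0 := rfl
    have T1 : t 1 = 1 := rfl
    have T2 : t 2 = 2 := rfl
    unfold II dd at h1
    interval_cases j
    · simp [t0, T0]
    · norm_num [t0, t1, T0, T1] at h1 ⊢; omega
    · norm_num [t1, t2, T1, T2] at h1 ⊢; omega
  · have := hV hj
    unfold II at h1
    omega

/-- key growth inequality -/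
theorem IsChi.star (h : IsChi c) : ∀ j, 6 ≤ j → (j + 2) * dd c (j + 1) ≤ 2 * c j := by
  intro j
  induction j using Nat.strong_induction_on with
  | _ j ih =>
    intro hj
    rcases Nat.lt_or_ge j 80 with hlt | hge
    · rw [h.dd_table (j + 1) (by omega), h.table j (by omega)]
      exact star_check j hlt hj
    · obtain ⟨k, k1, k2, k3, k4, k5⟩ := h.cell j (by omega)
      have hL : 5 * (j * dd c j) ≤ 9 * c j := by
        apply h.L_of_V k1 k3 k4
        intro hk3
        obtain ⟨l, l1, l2, l3, l4, l5⟩ := h.cell k (by omega)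
        have hl1 : 1 ≤ l := by
          by_contra hl
          have : l = 0 := by omega
          subst this
          have e : II c 1 = 2 := by
            unfold II dd
            rw [h.table 1 (by omega), h.table (1 - 1) (by omega)]; rfl
          rw [zero_add, e] at l2
          omega
        apply h.V_of l2 l3 l4
        rcases Nat.lt_or_ge l 6 with hl6 | hl6
        · rw [h.dd_table (l + 1) (by omega), h.table l (by omega)]
          exact star4_check l hl6 hl1
        · have := ih l (by omega) hl6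
          omega
      have hd : dd c 80 ≤ dd c j := h.dd_mono hge
      have hd80 : dd c 80 = 12 := by rw [h.dd_table 80 (by omega)]; rfl
      have hs := h.dd_succ_le j (by omega)
      have hd' : 12 ≤ dd c j := by omega
      have h9 : (j + 2) * dd c (j + 1) ≤ (j + 2) * (dd c j + 1) := Nat.mul_le_mul_left _ hs
      set d := dd c j with hdd
      have key : 9 * ((j + 2) * (d + 1)) ≤ 10 * (j * d) := by
        obtain ⟨u, rfl⟩ := Nat.exists_eq_add_of_le hge
        obtain ⟨w, hw⟩ := Nat.exists_eq_add_of_le hd'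
        rw [hw]
        nlinarith
      omega

theorem IsChi.V (h : IsChi c) (i : ℕ) (hi : 3 ≤ i) : 5 * c i ≤ 4 * (i * dd c i) := by
  obtain ⟨l, l1, l2, l3, l4, l5⟩ := h.cell i (by omega)
  have hl1 : 1 ≤ l := by
    by_contra hl
    have : l = 0 := by omega
    subst this
    have e : II c 1 = 2 := by
      unfold II dd
      rw [h.table 1 (by omega), h.table (1 - 1) (by omega)]; rfl
    rw [zero_add, e] at l2
    omega
  apply h.V_of l2 l3 l4
  rcases Nat.lt_or_ge l 6 with hl6 | hl6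
  · rw [h.dd_table (l + 1) (by omega), h.table l (by omega)]
    exact star4_check l hl6 hl1
  · have := h.star l hl6
    omega

theorem IsChi.L (h : IsChi c) (i : ℕ) (hi : 1 ≤ i) : 5 * (i * dd c i) ≤ 9 * c i := by
  obtain ⟨k, k1, k2, k3, k4, k5⟩ := h.cell i hi
  exact h.L_of_V k1 k3 k4 (fun hk => h.V k hk)

theorem IsChi.II_six (h : IsChi c) : II c 6 = 30 := by
  unfold II dd
  rw [h.table 6 (by omega), h.table (6 - 1) (by omega)]; rfl

theorem IsChi.U (h : IsChi c) (i : ℕ) (hi : 31 ≤ i) : 3 * c i ≤ 2 * (i * dd c i) := by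
  obtain ⟨k, k1, k2, k3, k4, k5⟩ := h.cell i (by omega)
  apply h.U_of k2 k3 k4
  apply h.star
  by_contra hk
  have h1 : II c (k + 1) ≤ II c 6 := h.II_strictMono.monotone (by omega)
  rw [h.II_six] at h1
  omega

/-- `c_j^2/j^3` is nondecreasing. -/
theorem IsChi.growth (h : IsChi c) {l e : ℕ} (hl : 30 ≤ l) (hle : l ≤ e) :
    c l ^ 2 * e ^ 3 ≤ c e ^ 2 * l ^ 3 := by
  induction e, hle using Nat.le_induction with
  | base => exact le_rfl
  | succ e hle ih =>
    have hU := h.U (e + 1) (by omega)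
    have hc := h.c_succ e
    set d := dd c (e + 1)
    -- 2(e+1) c_e ≤ (2e-1) c_{e+1}
    have h1 : 2 * (e + 1) * c e ≤ (2 * e - 1) * c (e + 1) := by
      have : 1 ≤ 2 * e := by omega
      zify [this]
      push_cast [hc]
      zify at hU hc
      rw [hc] at hU
      nlinarith
    have h2 : (2 * (e + 1) * c e) ^ 2 ≤ ((2 * e - 1) * c (e + 1)) ^ 2 := Nat.pow_le_pow_left h1 2
    have h3 : (2 * e - 1) ^ 2 * (e + 1) ≤ 4 * e ^ 3 := by
      have : 1 ≤ 2 * e := by omega
      zify [this]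
      nlinarith
    -- c_e^2 (e+1)^3 ≤ c_{e+1}^2 e^3
    have h4 : c e ^ 2 * (e + 1) ^ 3 ≤ c (e + 1) ^ 2 * e ^ 3 := by
      have h5 : 4 * (c e ^ 2 * (e + 1) ^ 3) ≤ 4 * (c (e + 1) ^ 2 * e ^ 3) := by
        calc 4 * (c e ^ 2 * (e + 1) ^ 3) = (2 * (e + 1) * c e) ^ 2 * (e + 1) := by ring
          _ ≤ ((2 * e - 1) * c (e + 1)) ^ 2 * (e + 1) := Nat.mul_le_mul_right _ h2
          _ = c (e + 1) ^ 2 * ((2 * e - 1) ^ 2 * (e + 1)) := by ring
          _ ≤ c (e + 1) ^ 2 * (4 * e ^ 3) := Nat.mul_le_mul_left _ h3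
          _ = 4 * (c (e + 1) ^ 2 * e ^ 3) := by ring
      omega
    have he : 0 < e ^ 3 := pow_pos (by omega) 3
    have h6 : (c l ^ 2 * (e + 1) ^ 3) * e ^ 3 ≤ (c (e + 1) ^ 2 * l ^ 3) * e ^ 3 := by
      calc (c l ^ 2 * (e + 1) ^ 3) * e ^ 3 = (c l ^ 2 * e ^ 3) * (e + 1) ^ 3 := by ring
        _ ≤ (c e ^ 2 * l ^ 3) * (e + 1) ^ 3 := Nat.mul_le_mul_right _ ih
        _ = (c e ^ 2 * (e + 1) ^ 3) * l ^ 3 := by ring
        _ ≤ (c (e + 1) ^ 2 * e ^ 3) * l ^ 3 := Nat.mul_le_mul_right _ h4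
        _ = (c (e + 1) ^ 2 * l ^ 3) * e ^ 3 := by ring
    exact Nat.le_of_mul_le_mul_right h6 he

/-- `l(l+1)/c_l` is nondecreasing. -/
theorem IsChi.B_mono (h : IsChi c) {l e : ℕ} (hl : 6 ≤ l) (hle : l ≤ e) :
    l * (l + 1) * c e ≤ e * (e + 1) * c l := by
  induction e, hle using Nat.le_induction with
  | base => exact le_rfl
  | succ e hle ih =>
    have hs := h.star e (by omega)
    have hc := h.c_succ e
    set d := dd c (e + 1)
    have h1 : e * c (e + 1) ≤ (e + 2) * c e := by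
      rw [hc]
      nlinarith
    have he : 0 < e := by omega
    have h2 : (l * (l + 1) * c (e + 1)) * e ≤ ((e + 1) * (e + 1 + 1) * c l) * e := by
      calc (l * (l + 1) * c (e + 1)) * e = (l * (l + 1)) * (e * c (e + 1)) := by ring
        _ ≤ (l * (l + 1)) * ((e + 2) * c e) := Nat.mul_le_mul_left _ h1
        _ = (l * (l + 1) * c e) * (e + 2) := by ring
        _ ≤ (e * (e + 1) * c l) * (e + 2) := Nat.mul_le_mul_right _ ih
        _ = ((e + 1) * (e + 1 + 1) * c l) * e := by ring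
    exact Nat.le_of_mul_le_mul_right h2 he

end Pool.Agent.Lib.MP_4856b2_nt

end

/-! merged from Pointwise -/

section

/-!
The pointwise comparison of the counting functions of `a` and of `c`.
-/

namespace Pool.Agent.Lib.MP_4856b2_nt

open Finset

variable {c a : ℕ → ℕ}

/-- layer function -/
def lam (l y : ℕ) : ℕ := y / l - y / (l + 1)

theorem div_succ_le (l y : ℕ) (hl : 1 ≤ l) : y / (l + 1) ≤ y / l :=
  Nat.div_le_div_left (by omega) (by omega)

theorem sum_lam (y : ℕ) {l j : ℕ} (hlj : l ≤ j) :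
    ∑ k ∈ Ioc l j, lam k y = y / (l + 1) - y / (j + 1) := by
  induction j, hlj using Nat.le_induction with
  | base => simp
  | succ j hlj ih =>
    rw [← Finset.insert_Ioc_right_eq_Ioc_add_one hlj, Finset.sum_insert (by simp), ih]
    unfold lam
    have h1 : y / (j + 1 + 1) ≤ y / (j + 1) := div_succ_le (j + 1) y (by omega)
    have h2 : y / (j + 1) ≤ y / (l + 1) := Nat.div_le_div_left (by omega) (by omega)
    omega

/-- the first index `k ≥ l` with `a_k < c_{k+1}` -/
noncomputable def qq (c a : ℕ → ℕ) (l : ℕ) : ℕ := sInf {k | l ≤ k ∧ a k < c (k + 1)}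

/-- the condition under which the line `l` is charged for the layer `l` at `y` -/
def act (c a : ℕ → ℕ) (l y : ℕ) : Prop :=
  c l < a l ∧ YY c l ≤ y ∧ y < YY c (inv c (a l)) ∧ a (qq c a l) < y ∧
    (qq c a l - l) * y < (l + 1) * (qq c a l + 1) * a (qq c a l) ∧ inv c (a l) ≤ qq c a l ∧
    c (qq c a l) < a (qq c a l)

open Classical in
/-- layer charge -/
noncomputable def CC (c a : ℕ → ℕ) (l y : ℕ) : ℕ := if act c a l y then lam l y else 0

open Classical in
/-- intercept charge -/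
noncomputable def JJ (c a : ℕ → ℕ) (l y : ℕ) : ℕ :=
  if c l < a l ∧ YY c (inv c (a l)) ≤ y ∧ y < YY c (inv c (a l) + 1) then a l - c (inv c (a l)) else 0

theorem IsChi.c_le_mul (h : IsChi c) (j : ℕ) : c j ≤ j * dd c j := by
  have := h.sub_le 0 j
  rw [h.zero] at this
  simpa using this

theorem IsChi.c_le_YY (h : IsChi c) (j : ℕ) : c j ≤ YY c j := by
  refine le_trans (h.c_le_mul j) ?_
  unfold YY
  apply Nat.mul_le_mul_right
  nlinarith

theorem count_le (ha : ∀ i j, (j + 1) * i ≤ a i + (j + 1) * a j) (ha0 : a 0 = 0) (hm : StrictMono a) (l y : ℕ) :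
    inv a y ≤ a l + y / (l + 1) := by
  have h1 := (inv_spec hm ha0 y).1
  have h2 := ha (inv a y) l
  have h3 : inv a y - a l ≤ y / (l + 1) := by
    rw [Nat.le_div_iff_mul_le (by omega), Nat.sub_mul, Nat.mul_comm, Nat.mul_comm (a l)]
    omega
  omega

theorem IsChi.count_ge' (h : IsChi c) (y : ℕ) :
    c (inv (YY c) y) + y / (inv (YY c) y + 1) ≤ inv c y := by
  obtain ⟨h1, h2⟩ := inv_spec h.YY_strictMono YY_zero y
  rw [le_inv_iff h.strictMono h.zero]
  exact h.count_ge _ _ h1 h2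

theorem pointwise (h : IsChi c) (ha0 : a 0 = 0) (hm : StrictMono a)
    (ha : ∀ i j, (j + 1) * i ≤ a i + (j + 1) * a j) {n y : ℕ} (hy : y < c n) :
    inv a y - inv c y ≤ ∑ l ∈ Ioc 0 n, (CC c a l y + JJ c a l y) := by
  classical
  rcases Nat.lt_or_ge (inv c y) (inv a y) with hlt | hge
  swap
  · have : inv a y - inv c y = 0 := by omega
    rw [this]; exact Nat.zero_le _
  set j := inv (YY c) y with hj
  obtain ⟨hj1, hj2⟩ := inv_spec h.YY_strictMono YY_zero y
  rw [← hj] at hj1 hj2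
  have hf := h.count_ge' y
  rw [← hj] at hf
  have hjn : j < n := by
    have := h.c_le_YY j
    exact h.strictMono.lt_iff_lt.1 (by omega)
  -- greatest `m ≤ j` with `a m < c (j+1)`
  set m := Nat.findGreatest (fun l => a l < c (j + 1)) j with hmdef
  have hm1 : a m < c (j + 1) := by
    apply Nat.findGreatest_spec (P := fun l => a l < c (j + 1)) (Nat.zero_le j)
    rw [ha0]
    have := h.le_self (j + 1)
    omega
  have hm2 : m ≤ j := Nat.findGreatest_le j
  have hm3 : ∀ l, m < l → l ≤ j → c (j + 1) ≤ a l := by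
    intro l hl hlj
    by_contra hcon
    have := Nat.le_findGreatest (P := fun l => a l < c (j + 1)) hlj (by omega)
    omega
  -- the intercept charge
  have hJ : a m - c j ≤ ∑ l ∈ Ioc 0 n, JJ c a l y := by
    rcases Nat.lt_or_ge (c j) (a m) with h1 | h1
    · have h2 : inv c (a m) = j := inv_unique h.strictMono h.zero h1.le hm1
      have hm0 : 0 < m := by
        rcases Nat.eq_zero_or_pos m with h0 | h0
        · rw [h0, ha0] at h1; omega
        · exact h0
      have h3 : JJ c a m y = a m - c j := by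
        unfold JJ
        rw [h2, if_pos]
        have : c m ≤ c j := h.strictMono.monotone hm2
        exact ⟨by omega, hj1, hj2⟩
      rw [← h3]
      exact Finset.single_le_sum (f := fun l => JJ c a l y) (fun _ _ => Nat.zero_le _)
        (Finset.mem_Ioc.2 ⟨hm0, by omega⟩)
    · have : a m - c j = 0 := by omega
      rw [this]; exact Nat.zero_le _
  rw [Finset.sum_add_distrib]
  rcases Nat.lt_or_ge m j with hmj | hmj
  swap
  · have e : m = j := by omega
    have h1 := count_le ha ha0 hm m y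
    rw [e] at h1 hJ
    omega
  -- the index q
  set q := qq c a j with hq
  have hfy1 : c (inv c y) ≤ y := (inv_spec h.strictMono h.zero y).1
  have hfy2 : y < c (inv c y + 1) := (inv_spec h.strictMono h.zero y).2
  have haN : a (inv a y) ≤ y := (inv_spec hm ha0 y).1
  have hjf : j ≤ inv c y := by
    rw [le_inv_iff h.strictMono h.zero]
    exact le_trans (h.c_le_YY j) hj1
  have hfmem : inv c y ∈ {k | j ≤ k ∧ a k < c (k + 1)} := by
    refine ⟨hjf, ?_⟩
    have : a (inv c y) < a (inv a y) := hm hlt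
    omega
  have hqmem : q ∈ {k | j ≤ k ∧ a k < c (k + 1)} := Nat.sInf_mem ⟨_, hfmem⟩
  have hqle : q ≤ inv c y := Nat.sInf_le hfmem
  obtain ⟨hq1, hq2⟩ := hqmem
  have hqj : j < q := by
    rcases Nat.lt_or_ge j q with h1 | h1
    · exact h1
    · have e : q = j := by omega
      rw [e] at hq2
      have := hm3 j hmj le_rfl
      omega
  have hqmin : ∀ k, j ≤ k → k < q → c (k + 1) ≤ a k := by
    intro k hk1 hk2
    by_contra hcon
    have : q ≤ k := Nat.sInf_le ⟨hk1, by omega⟩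
    omega
  have hcq : c q < a q := by
    obtain ⟨k, hk⟩ : ∃ k, q = k + 1 := ⟨q - 1, by omega⟩
    have h1 := hqmin k (by omega) (by omega)
    have h2 : a k < a (k + 1) := hm (Nat.lt_succ_self k)
    rw [hk]
    omega
  have hql : ∀ l, m < l → l ≤ j → qq c a l = q := by
    intro l hl hlj
    have hleast : IsLeast {k | l ≤ k ∧ a k < c (k + 1)} q := by
      refine ⟨⟨by omega, hq2⟩, ?_⟩
      rintro k ⟨hk1, hk2⟩
      by_contra hcon
      push Not at hcon
      rcases Nat.lt_or_ge k j with h1 | h1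
      · have h2 := hm3 k (by omega) h1.le
        have h3 : c (k + 1) < c (j + 1) := h.strictMono (by omega)
        omega
      · have := hqmin k h1 hcon
        omega
    exact hleast.csInf_eq
  have hXy : a q < y := by
    have : a q < a (inv a y) := hm (by omega)
    omega
  -- activity criterion
  have hact : ∀ l, m < l → l ≤ j → (q - l) * y < (l + 1) * (q + 1) * a q → CC c a l y = lam l y := by
    intro l hl hlj hcond
    unfold CC
    rw [if_pos]
    unfold act
    rw [hql l hl hlj]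
    have h1 := hm3 l hl hlj
    have h2 : c l < c (j + 1) := h.strictMono (by omega)
    have h3 : j + 1 ≤ inv c (a l) := (le_inv_iff h.strictMono h.zero).2 h1
    refine ⟨by omega, ?_, ?_, hXy, hcond, ?_, hcq⟩
    · exact le_trans (h.YY_strictMono.monotone hlj) hj1
    · exact lt_of_lt_of_le hj2 (h.YY_strictMono.monotone h3)
    · have h4 : inv c (a l) < q + 1 := by
        rw [inv_lt_iff h.strictMono h.zero]
        have : a l ≤ a q := hm.monotone (by omega)
        omega
      omega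
  -- the sum of the layers above `l₁`
  have hsum : ∀ l₁, m ≤ l₁ → l₁ ≤ j →
      (∀ l, l₁ < l → l ≤ j → (q - l) * y < (l + 1) * (q + 1) * a q) →
      y / (l₁ + 1) - y / (j + 1) ≤ ∑ l ∈ Ioc 0 n, CC c a l y := by
    intro l₁ h1 h2 h3
    rw [← sum_lam y h2]
    calc ∑ k ∈ Ioc l₁ j, lam k y = ∑ k ∈ Ioc l₁ j, CC c a k y := by
          apply Finset.sum_congr rfl
          intro k hk
          rw [Finset.mem_Ioc] at hk
          exact (hact k (by omega) hk.2 (h3 k hk.1 hk.2)).symm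
      _ ≤ ∑ k ∈ Ioc 0 n, CC c a k y := by
          apply Finset.sum_le_sum_of_subset
          intro k hk
          rw [Finset.mem_Ioc] at hk ⊢
          omega
  by_cases hex : ∃ l, m < l ∧ l ≤ j ∧ (l + 1) * (q + 1) * a q ≤ (q - l) * y
  · -- take the largest such `l`
    obtain ⟨l0, hl0a, hl0b, hl0c⟩ := hex
    set P : ℕ → Prop := fun l => m < l ∧ (l + 1) * (q + 1) * a q ≤ (q - l) * y with hP
    set l₁ := Nat.findGreatest P j with hl₁
    have hPl₁ : P l₁ := Nat.findGreatest_spec (P := P) hl0b ⟨hl0a, hl0c⟩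
    have hl₁j : l₁ ≤ j := Nat.findGreatest_le j
    have hmax : ∀ l, l₁ < l → l ≤ j → (q - l) * y < (l + 1) * (q + 1) * a q := by
      intro l hl hlj
      by_contra hcon
      push Not at hcon
      have := Nat.le_findGreatest (P := P) hlj ⟨by have := hPl₁.1; omega, hcon⟩
      omega
    have h1 := hsum l₁ hPl₁.1.le hl₁j hmax
    have h2 := count_le ha ha0 hm q y
    have h3 : a q + y / (q + 1) ≤ y / (l₁ + 1) := by
      have hP2 := hPl₁.2
      rw [Nat.le_div_iff_mul_le (by omega)]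
      have h4 : y / (q + 1) * (q + 1) ≤ y := Nat.div_mul_le_self _ _
      have hsub : (q - l₁) + (l₁ + 1) = q + 1 := by omega
      -- multiply by (q+1)
      have h5 : ((a q + y / (q + 1)) * (l₁ + 1)) * (q + 1) ≤ y * (q + 1) := by
        calc ((a q + y / (q + 1)) * (l₁ + 1)) * (q + 1)
            = (l₁ + 1) * (q + 1) * a q + (l₁ + 1) * (y / (q + 1) * (q + 1)) := by ring
          _ ≤ (q - l₁) * y + (l₁ + 1) * y := Nat.add_le_add hP2 (Nat.mul_le_mul_left _ h4)
          _ = ((q - l₁) + (l₁ + 1)) * y := by ring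
          _ = y * (q + 1) := by rw [hsub]; ring
      exact Nat.le_of_mul_le_mul_right h5 (by omega)
    omega
  · push Not at hex
    have h1 := hsum m le_rfl hm2 (fun l hl hlj => hex l hl hlj)
    have h2 := count_le ha ha0 hm m y
    omega

end Pool.Agent.Lib.MP_4856b2_nt

end

/-! merged from LogSum -/

section

/-!
Sums of `v y = 1/(y(y+1))` and logarithmic bounds.
-/

namespace Pool.Agent.Lib.MP_4856b2_nt

open Finset

/-- the weight -/
noncomputable def v (y : ℕ) : ℝ := 1 / ((y : ℝ) * (y + 1))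

theorem v_nonneg (y : ℕ) : 0 ≤ v y := by unfold v; positivity

theorem v_eq {y : ℕ} (hy : 1 ≤ y) : v y = 1 / (y : ℝ) - 1 / ((y : ℝ) + 1) := by
  have : (0 : ℝ) < y := by exact_mod_cast hy
  unfold v; field_simp; ring

theorem sum_v {a b : ℕ} (ha : 1 ≤ a) (hab : a ≤ b) :
    ∑ y ∈ Ico a b, v y = 1 / (a : ℝ) - 1 / (b : ℝ) := by
  induction b, hab using Nat.le_induction with
  | base => simp
  | succ b hb ih =>
    rw [Finset.sum_Ico_succ_top hb, ih, v_eq (le_trans ha hb)]
    push_cast; ring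

theorem sum_inv_succ_le {A B : ℕ} (hA : 1 ≤ A) (hAB : A ≤ B) :
    ∑ y ∈ Ico A B, 1 / ((y : ℝ) + 1) ≤ Real.log B - Real.log A := by
  induction B, hAB using Nat.le_induction with
  | base => simp
  | succ b hb ih =>
    rw [Finset.sum_Ico_succ_top hb]
    have hb0 : (0 : ℝ) < b := by exact_mod_cast (le_trans hA hb)
    have h1 : 1 / ((b : ℝ) + 1) ≤ Real.log ((b : ℝ) + 1) - Real.log b := by
      rw [← Real.log_div (by positivity) (by positivity)]
      have := Real.one_sub_inv_le_log_of_pos (x := ((b : ℝ) + 1) / b) (by positivity)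
      have e : 1 - (((b : ℝ) + 1) / b)⁻¹ = 1 / ((b : ℝ) + 1) := by
        field_simp; ring
      linarith
    push_cast
    linarith

theorem lam_le (l y : ℕ) (hl : 1 ≤ l) :
    (lam l y : ℝ) ≤ ((y : ℝ) + (l : ℝ) ^ 2) / ((l : ℝ) * (l + 1)) := by
  have h0 := div_succ_le l y hl
  have hl0 : (0 : ℝ) < l := by exact_mod_cast hl
  unfold lam
  rw [Nat.cast_sub h0]
  have h1 : ((y / l : ℕ) : ℝ) ≤ (y : ℝ) / l := Nat.cast_div_le
  have h2 : (y : ℝ) - l ≤ ((l : ℝ) + 1) * ((y / (l + 1) : ℕ) : ℝ) := by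
    have a := Nat.div_add_mod y (l + 1)
    have b := Nat.mod_lt y (show 0 < l + 1 by omega)
    have c : y ≤ (l + 1) * (y / (l + 1)) + l := by omega
    have c' : (y : ℝ) ≤ ((l + 1) * (y / (l + 1)) + l : ℕ) := by exact_mod_cast c
    push_cast at c'
    linarith
  have h3 : ((y : ℝ) - l) / ((l : ℝ) + 1) ≤ ((y / (l + 1) : ℕ) : ℝ) := by
    rw [div_le_iff₀ (by positivity)]; linarith
  have e : ((y : ℝ) + (l : ℝ) ^ 2) / ((l : ℝ) * (l + 1)) = (y : ℝ) / l - ((y : ℝ) - l) / ((l : ℝ) + 1) := by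
    field_simp; ring
  rw [e]; linarith

theorem lam_v_le (l y : ℕ) (hl : 1 ≤ l) (hy : 1 ≤ y) :
    (lam l y : ℝ) * v y ≤ (1 / ((l : ℝ) * (l + 1))) * (1 / ((y : ℝ) + 1) + (l : ℝ) ^ 2 * v y) := by
  have hl0 : (0 : ℝ) < l := by exact_mod_cast hl
  have hy0 : (0 : ℝ) < y := by exact_mod_cast hy
  calc (lam l y : ℝ) * v y ≤ (((y : ℝ) + (l : ℝ) ^ 2) / ((l : ℝ) * (l + 1))) * v y :=
        mul_le_mul_of_nonneg_right (lam_le l y hl) (v_nonneg y)
    _ = _ := by unfold v; field_simp

theorem sum_lam_le_N {l A B : ℕ} (hl : 1 ≤ l) (hA : 1 ≤ A) (hAB : A ≤ B) :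
    ∑ y ∈ Ico A B, (lam l y : ℝ) * v y ≤
      (1 / ((l : ℝ) * (l + 1))) * (Real.log B - Real.log A + (l : ℝ) ^ 2 * (1 / (A : ℝ) - 1 / B)) := by
  have hl0 : (0 : ℝ) < l := by exact_mod_cast hl
  calc ∑ y ∈ Ico A B, (lam l y : ℝ) * v y
      ≤ ∑ y ∈ Ico A B, (1 / ((l : ℝ) * (l + 1))) * (1 / ((y : ℝ) + 1) + (l : ℝ) ^ 2 * v y) := by
        apply Finset.sum_le_sum
        intro y hy
        rw [Finset.mem_Ico] at hy
        exact lam_v_le l y hl (by omega)
    _ = (1 / ((l : ℝ) * (l + 1))) * (∑ y ∈ Ico A B, 1 / ((y : ℝ) + 1) + (l : ℝ) ^ 2 * ∑ y ∈ Ico A B, v y) := by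
        rw [← Finset.mul_sum, Finset.sum_add_distrib, ← Finset.mul_sum]
    _ ≤ _ := by
        apply mul_le_mul_of_nonneg_left _ (by positivity)
        rw [sum_v hA hAB]
        have := sum_inv_succ_le hA hAB
        linarith

theorem sum_inv_le {A B : ℕ} (hA : 2 ≤ A) (hAB : A ≤ B) :
    ∑ y ∈ Ico A B, 1 / (y : ℝ) ≤ Real.log ((B : ℝ) - 1) - Real.log ((A : ℝ) - 1) := by
  induction B, hAB using Nat.le_induction with
  | base => simp
  | succ b hb ih =>
    rw [Finset.sum_Ico_succ_top hb]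
    have hb2 : (2 : ℝ) ≤ b := by exact_mod_cast (le_trans hA hb)
    have hb1 : (0 : ℝ) < (b : ℝ) - 1 := by linarith
    have hb0 : (0 : ℝ) < (b : ℝ) := by linarith
    have h1 : 1 / (b : ℝ) ≤ Real.log b - Real.log ((b : ℝ) - 1) := by
      rw [← Real.log_div (by positivity) (by positivity)]
      have := Real.one_sub_inv_le_log_of_pos (x := (b : ℝ) / (b - 1)) (by positivity)
      have e : 1 - ((b : ℝ) / (b - 1))⁻¹ = 1 / (b : ℝ) := by
        field_simp; ring
      linarith
    push_cast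
    have e2 : (b : ℝ) + 1 - 1 = b := by ring
    rw [e2]
    linarith

theorem sum_lam_le_F {l A B : ℕ} (hl : 1 ≤ l) (hA : 2 ≤ A) (hAB : A ≤ B) :
    ∑ y ∈ Ico A B, (lam l y : ℝ) * v y ≤
      (1 / ((l : ℝ) * (l + 1))) * (Real.log ((B : ℝ) - 1) - Real.log ((A : ℝ) - 1)
        + ((l : ℝ) ^ 2 - 1) * (1 / (A : ℝ) - 1 / B)) := by
  have hl0 : (0 : ℝ) < l := by exact_mod_cast hl
  have hl1 : (1 : ℝ) ≤ l := by exact_mod_cast hl
  calc ∑ y ∈ Ico A B, (lam l y : ℝ) * v y
      ≤ ∑ y ∈ Ico A B, (1 / ((l : ℝ) * (l + 1))) * (1 / (y : ℝ) + ((l : ℝ) ^ 2 - 1) * v y) := by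
        apply Finset.sum_le_sum
        intro y hy
        rw [Finset.mem_Ico] at hy
        have hy1 : 1 ≤ y := by omega
        have hy0 : (0 : ℝ) < y := by exact_mod_cast hy1
        have := lam_v_le l y hl hy1
        have e := v_eq hy1
        have e3 : 1 / (y : ℝ) + ((l : ℝ) ^ 2 - 1) * v y = 1 / ((y : ℝ) + 1) + (l : ℝ) ^ 2 * v y := by
          have : v y = 1 / (y : ℝ) - 1 / ((y : ℝ) + 1) := e
          linear_combination (-1 : ℝ) * this
        rw [e3]; exact this
    _ = (1 / ((l : ℝ) * (l + 1))) * (∑ y ∈ Ico A B, 1 / (y : ℝ) + ((l : ℝ) ^ 2 - 1) * ∑ y ∈ Ico A B, v y) := by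
        rw [← Finset.mul_sum, Finset.sum_add_distrib, ← Finset.mul_sum]
    _ ≤ _ := by
        apply mul_le_mul_of_nonneg_left _ (by positivity)
        rw [sum_v (by omega) hAB]
        have := sum_inv_le hA hAB
        linarith

end Pool.Agent.Lib.MP_4856b2_nt

end

/-! merged from KI -/

section

/-!
Reduction of the key layer inequality to real inequalities.
-/

namespace Pool.Agent.Lib.MP_4856b2_nt

open Finset

variable {c : ℕ → ℕ}

/-- near inequality -/
def KN (c : ℕ → ℕ) (l e : ℕ) : Prop :=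
  Real.log (YY c e) - Real.log (YY c l) + (l : ℝ) ^ 2 * (1 / (YY c l : ℝ) - 1 / (YY c e : ℝ))
    ≤ (l : ℝ) * (l + 1) * (1 / (c l : ℝ) - 1 / (c e : ℝ))

/-- far inequality -/
def KF (c : ℕ → ℕ) (l e : ℕ) : Prop :=
  Real.log ((l : ℝ) + 1) + Real.log ((e : ℝ) + 1) - Real.log ((e : ℝ) - l)
    + ((l : ℝ) ^ 2 - 1) / (max (YY c l) (c e + 2) : ℕ)
    ≤ (l : ℝ) * (l + 1) * (1 / (c l : ℝ) - 1 / (c e : ℝ))

theorem term_nonneg (l y : ℕ) : 0 ≤ (lam l y : ℝ) * v y :=
  mul_nonneg (Nat.cast_nonneg _) (v_nonneg y)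

theorem IsChi.YY_pos (h : IsChi c) {l : ℕ} (hl : 1 ≤ l) : 1 ≤ YY c l := by
  have := h.YY_strictMono.id_le l
  simp only [id] at this
  omega

theorem KI_N (h : IsChi c) {l e : ℕ} (hl : 1 ≤ l) (hle : l < e) (hN : KN c l e)
    (S : Finset ℕ) (hS : ∀ y ∈ S, YY c l ≤ y ∧ y < YY c e) :
    ∑ y ∈ S, (lam l y : ℝ) * v y ≤ 1 / (c l : ℝ) - 1 / (c e : ℝ) := by
  have hl0 : (0 : ℝ) < l := by exact_mod_cast hl
  have hsub : S ⊆ Ico (YY c l) (YY c e) := fun y hy => Finset.mem_Ico.2 (hS y hy)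
  have hY : YY c l ≤ YY c e := h.YY_strictMono.monotone hle.le
  calc ∑ y ∈ S, (lam l y : ℝ) * v y ≤ ∑ y ∈ Ico (YY c l) (YY c e), (lam l y : ℝ) * v y :=
        Finset.sum_le_sum_of_subset_of_nonneg hsub (fun y _ _ => term_nonneg l y)
    _ ≤ _ := sum_lam_le_N hl (h.YY_pos hl) hY
    _ ≤ (1 / ((l : ℝ) * (l + 1))) * ((l : ℝ) * (l + 1) * (1 / (c l : ℝ) - 1 / (c e : ℝ))) :=
        mul_le_mul_of_nonneg_left hN (by positivity)
    _ = _ := by field_simp

theorem KI_F (h : IsChi c) {l e : ℕ} (hl : 1 ≤ l) (hle : l < e) (hF : KF c l e)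
    {X : ℕ} (hX : c e + 1 ≤ X)
    (S : Finset ℕ) (hS : ∀ y ∈ S, YY c l ≤ y ∧ X < y ∧ (e - l) * y < (l + 1) * (e + 1) * X) :
    ∑ y ∈ S, (lam l y : ℝ) * v y ≤ 1 / (c l : ℝ) - 1 / (c e : ℝ) := by
  have hl0 : (0 : ℝ) < l := by exact_mod_cast hl
  have hl1 : (1 : ℝ) ≤ l := by exact_mod_cast hl
  have hel : 0 < e - l := by omega
  have hce : c l < c e := h.strictMono hle
  have hcl : 1 ≤ c l := le_trans hl (h.le_self l)
  set A := max (YY c l) (X + 1) with hA
  set B := ((l + 1) * (e + 1) * X - 1) / (e - l) + 1 with hB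
  have hXpos : 1 ≤ X := by omega
  have hprod : 1 ≤ (l + 1) * (e + 1) * X := Nat.mul_pos (Nat.mul_pos (by omega) (by omega)) hXpos
  have hmem : ∀ y ∈ S, A ≤ y ∧ y < B := by
    intro y hy
    obtain ⟨h1, h2, h3⟩ := hS y hy
    refine ⟨max_le h1 h2, ?_⟩
    have : y ≤ ((l + 1) * (e + 1) * X - 1) / (e - l) := by
      rw [Nat.le_div_iff_mul_le hel, mul_comm]; omega
    omega
  have hRHS : 0 ≤ 1 / (c l : ℝ) - 1 / (c e : ℝ) := by
    have a : (0 : ℝ) < c l := by exact_mod_cast hcl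
    have b : (c l : ℝ) ≤ c e := by exact_mod_cast hce.le
    have := one_div_le_one_div_of_le a b
    linarith
  rcases Nat.lt_or_ge A B with hAB | hAB
  swap
  · have : S = ∅ := by
      apply Finset.eq_empty_of_forall_notMem
      intro y hy
      have := hmem y hy
      omega
    rw [this]; simpa using hRHS
  have hA2 : 2 ≤ A := le_trans (by omega) (le_max_right _ _)
  have hsub : S ⊆ Ico A B := fun y hy => Finset.mem_Ico.2 (hmem y hy)
  have hAX : (X : ℝ) ≤ (A : ℝ) - 1 := by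
    have : X + 1 ≤ A := le_max_right _ _
    have : ((X + 1 : ℕ) : ℝ) ≤ A := by exact_mod_cast this
    push_cast at this; linarith
  have hX0 : (0 : ℝ) < X := by exact_mod_cast hXpos
  have helR : (0 : ℝ) < (e : ℝ) - l := by
    have : (l : ℝ) < e := by exact_mod_cast hle
    linarith
  have hBX : ((B : ℝ) - 1) ≤ ((l : ℝ) + 1) * (e + 1) * X / ((e : ℝ) - l) := by
    rw [le_div_iff₀ helR]
    have h1 : (e - l) * (((l + 1) * (e + 1) * X - 1) / (e - l)) ≤ (l + 1) * (e + 1) * X - 1 := Nat.mul_div_le _ _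
    have h2 : (e - l) * (B - 1) ≤ (l + 1) * (e + 1) * X := by
      have : B - 1 = ((l + 1) * (e + 1) * X - 1) / (e - l) := by omega
      rw [this]; omega
    have h3 : (((e - l) * (B - 1) : ℕ) : ℝ) ≤ (((l + 1) * (e + 1) * X : ℕ) : ℝ) := by exact_mod_cast h2
    rw [Nat.cast_mul, Nat.cast_sub hle.le, Nat.cast_sub (by omega)] at h3
    push_cast at h3
    linarith
  have hB1 : (0 : ℝ) < (B : ℝ) - 1 := by
    have : A + 1 ≤ B := hAB
    have : ((A + 1 : ℕ) : ℝ) ≤ B := by exact_mod_cast this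
    push_cast at this; linarith
  have hlogs : Real.log ((B : ℝ) - 1) - Real.log ((A : ℝ) - 1) ≤
      Real.log ((l : ℝ) + 1) + Real.log ((e : ℝ) + 1) - Real.log ((e : ℝ) - l) := by
    have e1 : Real.log ((B : ℝ) - 1) ≤ Real.log (((l : ℝ) + 1) * (e + 1) * X / ((e : ℝ) - l)) :=
      Real.log_le_log hB1 hBX
    have e2 : Real.log X ≤ Real.log ((A : ℝ) - 1) := Real.log_le_log hX0 hAX
    have e3 : Real.log (((l : ℝ) + 1) * (e + 1) * X / ((e : ℝ) - l)) =
        Real.log ((l : ℝ) + 1) + Real.log ((e : ℝ) + 1) + Real.log X - Real.log ((e : ℝ) - l) := by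
      rw [Real.log_div (by positivity) (by positivity), Real.log_mul (by positivity) (by positivity),
        Real.log_mul (by positivity) (by positivity)]
    linarith
  have hmaxle : max (YY c l) (c e + 2) ≤ A := max_le_max le_rfl (by omega)
  have hmaxpos : 0 < max (YY c l) (c e + 2) := lt_of_lt_of_le (by omega) (le_max_right _ _)
  have herr : ((l : ℝ) ^ 2 - 1) * (1 / (A : ℝ) - 1 / B) ≤ ((l : ℝ) ^ 2 - 1) / (max (YY c l) (c e + 2) : ℕ) := by
    have a0 : (0 : ℝ) ≤ (l : ℝ) ^ 2 - 1 := by nlinarith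
    have e0 : ((l : ℝ) ^ 2 - 1) / (max (YY c l) (c e + 2) : ℕ) =
        ((l : ℝ) ^ 2 - 1) * (1 / ((max (YY c l) (c e + 2) : ℕ) : ℝ)) := by ring
    rw [e0]
    apply mul_le_mul_of_nonneg_left _ a0
    have a1 : 1 / (A : ℝ) ≤ 1 / ((max (YY c l) (c e + 2) : ℕ) : ℝ) :=
      one_div_le_one_div_of_le (by exact_mod_cast hmaxpos) (by exact_mod_cast hmaxle)
    have a2 : 0 ≤ 1 / (B : ℝ) := by positivity
    linarith
  calc ∑ y ∈ S, (lam l y : ℝ) * v y ≤ ∑ y ∈ Ico A B, (lam l y : ℝ) * v y :=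
        Finset.sum_le_sum_of_subset_of_nonneg hsub (fun y _ _ => term_nonneg l y)
    _ ≤ _ := sum_lam_le_F hl hA2 hAB.le
    _ ≤ (1 / ((l : ℝ) * (l + 1))) * ((l : ℝ) * (l + 1) * (1 / (c l : ℝ) - 1 / (c e : ℝ))) := by
        apply mul_le_mul_of_nonneg_left _ (by positivity)
        unfold KF at hF
        linarith
    _ = _ := by field_simp

end Pool.Agent.Lib.MP_4856b2_nt

end

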