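import Pool.Agent.Lib.MP_4856b2_nt.PartA

/-! merged from LogTable -/

section

/-!
Rational bounds on logarithms, and the numerical verification of the key inequality for small `l`.
-/

namespace Pool.Agent.Lib.MP_4856b2_nt

variable {c : ℕ → ℕ}

theorem pade_deriv {x : ℝ} (hx : 0 < x) :
    HasDerivAt (fun x : ℝ => (x ^ 2 + 4 * x - 5) / (4 * x + 2) - Real.log x)
      (4 * (x - 1) ^ 3 / (x * (4 * x + 2) ^ 2)) x := by
  have h1 : HasDerivAt (fun x : ℝ => x ^ 2 + 4 * x - 5) (2 * x + 4) x := by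
    have a : HasDerivAt (fun x : ℝ => x ^ 2 + 4 * x - 5) ((2 : ℕ) * x ^ (2 - 1) + 4 * 1) x :=
      ((hasDerivAt_pow 2 x).add ((hasDerivAt_id' x).const_mul 4)).sub_const 5
    exact a.congr_deriv (by norm_num)
  have h2 : HasDerivAt (fun x : ℝ => 4 * x + 2) 4 x := by
    have a : HasDerivAt (fun x : ℝ => 4 * x + 2) (4 * 1) x := ((hasDerivAt_id' x).const_mul 4).add_const 2
    exact a.congr_deriv (by norm_num)
  have h3 : (4 * x + 2) ≠ 0 := by positivity
  have h4 : HasDerivAt (fun x : ℝ => (x ^ 2 + 4 * x - 5) / (4 * x + 2) - Real.log x) (((2 * x + 4) * (4 * x + 2) - (x ^ 2 + 4 * x - 5) * 4) / (4 * x + 2) ^ 2 - x⁻¹) x := 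
    (h1.div h2 h3).sub (Real.hasDerivAt_log hx.ne')
  apply h4.congr_deriv
  field_simp
  ring

theorem log_le_pade {x : ℝ} (hx : 0 < x) : Real.log x ≤ (x ^ 2 + 4 * x - 5) / (4 * x + 2) := by
  set f : ℝ → ℝ := fun x : ℝ => (x ^ 2 + 4 * x - 5) / (4 * x + 2) - Real.log x with hf
  have f1 : f 1 = 0 := by simp [hf]; norm_num
  suffices h : 0 ≤ f x by
    simp only [hf] at h; linarith
  rw [← f1]
  rcases le_total 1 x with h | h
  · have hm : MonotoneOn f (Set.Icc 1 x) := by
      apply monotoneOn_of_deriv_nonneg (convex_Icc 1 x)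
      · intro y hy
        exact (pade_deriv (by linarith [hy.1] : (0 : ℝ) < y)).continuousAt.continuousWithinAt
      · intro y hy
        rw [interior_Icc] at hy
        exact (pade_deriv (by linarith [hy.1] : (0 : ℝ) < y)).differentiableAt.differentiableWithinAt
      · intro y hy
        rw [interior_Icc] at hy
        have hy0 : (0 : ℝ) < y := by linarith [hy.1]
        rw [(pade_deriv hy0).deriv]
        have : 0 ≤ (y - 1) ^ 3 := pow_nonneg (by linarith [hy.1]) 3
        positivity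
    exact hm ⟨le_rfl, h⟩ ⟨h, le_rfl⟩ h
  · have hm : AntitoneOn f (Set.Icc x 1) := by
      apply antitoneOn_of_deriv_nonpos (convex_Icc x 1)
      · intro y hy
        exact (pade_deriv (by linarith [hy.1] : (0 : ℝ) < y)).continuousAt.continuousWithinAt
      · intro y hy
        rw [interior_Icc] at hy
        exact (pade_deriv (by linarith [hy.1] : (0 : ℝ) < y)).differentiableAt.differentiableWithinAt
      · intro y hy
        rw [interior_Icc] at hy
        have hy0 : (0 : ℝ) < y := by linarith [hy.1]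
        rw [(pade_deriv hy0).deriv]
        have : 0 ≤ (1 - y) ^ 3 := pow_nonneg (by linarith [hy.2]) 3
        have e : 4 * (y - 1) ^ 3 / (y * (4 * y + 2) ^ 2) = - (4 * (1 - y) ^ 3 / (y * (4 * y + 2) ^ 2)) := by
          ring
        rw [e]
        have : 0 ≤ 4 * (1 - y) ^ 3 / (y * (4 * y + 2) ^ 2) := by positivity
        linarith
    exact hm ⟨le_rfl, h⟩ ⟨h, le_rfl⟩ h

theorem log_step_up {n : ℝ} (hn : 0 < n) :
    Real.log (n + 1) ≤ Real.log n + (6 * n + 1) / (2 * n * (3 * n + 2)) := by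
  have h := log_le_pade (x := (n + 1) / n) (by positivity)
  rw [Real.log_div (by positivity) (by positivity)] at h
  have e : (((n + 1) / n) ^ 2 + 4 * ((n + 1) / n) - 5) / (4 * ((n + 1) / n) + 2) =
      (6 * n + 1) / (2 * n * (3 * n + 2)) := by
    field_simp; ring
  linarith

theorem log_step_down {n : ℝ} (hn : 0 < n) :
    Real.log n + (6 * n + 5) / (2 * (n + 1) * (3 * n + 1)) ≤ Real.log (n + 1) := by
  have h := log_le_pade (x := n / (n + 1)) (by positivity)
  rw [Real.log_div (by positivity) (by positivity)] at h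
  have e : ((n / (n + 1)) ^ 2 + 4 * (n / (n + 1)) - 5) / (4 * (n / (n + 1)) + 2) =
      - ((6 * n + 5) / (2 * (n + 1) * (3 * n + 1))) := by
    field_simp; ring
  linarith

/-- upper bounds for `10^6 log n` -/
def LUt : List ℕ := [0, 0, 693148, 1099398, 1387277, 1610492, 1792845, 1947012, 2080553, 2198342, 2303706, 2399019, 2486032, 2566076, 2640185, 2709179, 2773719, 2834344, 2891503, 2945571, 2996865, 3045656, 3092177, 3136629, 3179189, 3220012, 3259233, 3296974, 3333342, 3368434, 3402336, 3435126, 3466875, 3497647, 3527500, 3556488, 3584659, 3612058, 3638727, 3664703, 3690021, 3714714, 3738812, 3762343, 3785333, 3807806, 3829785, 3851292, 3872346, 3892966, 3913169, 3932972, 3952391, 3971440, 3990133, 4008483, 4026502, 4044202, 4061594, 4078689, 4095497, 4112027, 4128288, 4144289, 4160038, 4175543, 4190811, 4205849, 4220665, 4235264, 4249653, 4263838, 4277825, 4291619, 4305225, 4318649, 4331895, 4344968, 4357872, 4370612, 4383191, 4395614,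 4407885, 4420007, 4431984, 4443819, 4455516, 4467077, 4478506, 4489806, 4500980, 4512030, 4522960, 4533771, 4544467, 4555050, 4565522, 4575885, 4586142, 4596295, 4606346, 4616297, 4626150, 4635907, 4645569, 4655139, 4664618, 4674008, 4683311, 4692528, 4701661, 4710711, 4719680, 4728569, 4737380, 4746114, 4754773, 4763357, 4771868, 4780307, 4788676, 4796975, 4805206, 4813370, 4821468, 4829501, 4837470, 4845376, 4853220, 4861003, 4868726, 4876389, 4883994]

/-- lower bounds for `10^6 log n` -/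
def LLt : List ℕ := [0, 0, 693147, 1097908, 1385408, 1608484, 1790775, 1944910, 2078432, 2196209, 2301566, 2396873, 2483882, 2563923, 2638030, 2707022, 2771560, 2832184, 2889342, 2943408, 2994701, 3043491, 3090010, 3134461, 3177020, 3217841, 3257061, 3294801, 3331168, 3366259, 3400160, 3432949, 3464697, 3495468, 3525320, 3554307, 3582477, 3609875, 3636543, 3662518, 3687835, 3712527, 3736624, 3760154, 3783143, 3805615, 3827593, 3849099, 3870152, 3890771, 3910973, 3930775, 3950193, 3969241, 3987933, 4006282, 4024300, 4041999, 4059390, 4076484, 4093291, 4109820, 4126080, 4142080, 4157828, 4173332, 4188599, 4203636, 4218451, 4233049, 4247437, 4261621, 4275607, 4289400, 4303005, 4316428, 4329673, 4342745, 4355648, 4368387, 4380965, 4393387, 4405657, 4417778, 4429754, 4441588, 4453284, 4464844, 4476272, 4487571, 4498744, 4509793, 4520722, 4531532, 4542227, 4552809, 4563280, 4573642, 4583898, 4594050, 4604100, 4614050, 4623902, 4633658, 4643319, 4652888,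 4662366, 4671755, 4681057, 4690273, 4699405, 4708454, 4717422, 4726310, 4735120, 4743853, 4752511, 4761094, 4769604, 4778042, 4786410, 4794708, 4802938, 4811101, 4819198, 4827230, 4835198, 4843103, 4850946, 4858728, 4866450, 4874112, 4881716]

def LU (n : ℕ) : ℕ := LUt.getD n 0

def LL (n : ℕ) : ℕ := LLt.getD n 0

theorem LU_check : ∀ n < 132, 2 ≤ n →
    (LU n) * (2 * n * (3 * n + 2)) + 1000000 * (6 * n + 1) ≤ LU (n + 1) * (2 * n * (3 * n + 2)) := by
  decide +kernel

theorem LL_check : ∀ n < 132, 2 ≤ n →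
    (LL (n + 1)) * (2 * (n + 1) * (3 * n + 1)) ≤ (LL n) * (2 * (n + 1) * (3 * n + 1)) + 1000000 * (6 * n + 5) := by
  decide +kernel

theorem LU_1 : LU 1 = 0 := by decide +kernel
theorem LL_1 : LL 1 = 0 := by decide +kernel
theorem LU_2 : LU 2 = 693148 := by decide +kernel
theorem LL_2 : LL 2 = 693147 := by decide +kernel

theorem log_le_LU {n : ℕ} (hn : 1 ≤ n) (hn2 : n ≤ 132) : Real.log n ≤ (LU n : ℝ) / 1000000 := by
  rcases Nat.lt_or_ge n 2 with h2 | h2
  · have : n = 1 := by omega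
    subst this
    simp [LU_1]
  · induction n, h2 using Nat.le_induction with
    | base =>
      rw [LU_2]
      have := Real.log_two_lt_d9
      push_cast
      linarith
    | succ n h2 ih =>
      have ih := ih (by omega) (by omega)
      have h := LU_check n (by omega) h2
      have hn0 : (0 : ℝ) < n := by
        have : 0 < n := by omega
        exact_mod_cast this
      have hs := log_step_up hn0
      have hR : ((LU n : ℕ) : ℝ) * (2 * n * (3 * n + 2)) + 1000000 * (6 * n + 1) ≤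
          (LU (n + 1) : ℝ) * (2 * n * (3 * n + 2)) := by exact_mod_cast h
      have hpos : (0 : ℝ) < 2 * n * (3 * n + 2) := by positivity
      have h3 : (6 * (n : ℝ) + 1) / (2 * n * (3 * n + 2)) ≤ ((LU (n + 1) : ℝ) - LU n) / 1000000 := by
        rw [div_le_div_iff₀ hpos (by norm_num)]
        linarith
      push_cast
      linarith

theorem LL_le_log {n : ℕ} (hn : 1 ≤ n) (hn2 : n ≤ 132) : (LL n : ℝ) / 1000000 ≤ Real.log n := by
  rcases Nat.lt_or_ge n 2 with h2 | h2
  · have : n = 1 := by omega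
    subst this
    simp [LL_1]
  · induction n, h2 using Nat.le_induction with
    | base =>
      rw [LL_2]
      have := Real.log_two_gt_d9
      push_cast
      linarith
    | succ n h2 ih =>
      have ih := ih (by omega) (by omega)
      have h := LL_check n (by omega) h2
      have hn0 : (0 : ℝ) < n := by
        have : 0 < n := by omega
        exact_mod_cast this
      have hs := log_step_down hn0
      have hR : (LL (n + 1) : ℝ) * (2 * (n + 1) * (3 * n + 1)) ≤
          ((LL n : ℕ) : ℝ) * (2 * (n + 1) * (3 * n + 1)) + 1000000 * (6 * n + 5) := by exact_mod_cast h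
      have hpos : (0 : ℝ) < 2 * (n + 1) * (3 * n + 1) := by positivity
      have h3 : ((LL (n + 1) : ℝ) - LL n) / 1000000 ≤ (6 * (n : ℝ) + 5) / (2 * (n + 1) * (3 * n + 1)) := by
        rw [div_le_div_iff₀ (by norm_num) hpos]
        linarith
      push_cast
      linarith

/-- thresholds between the near and the far inequality -/
def Et : List ℕ := [0, 3, 5, 8, 11, 14, 17, 20, 21, 23, 24, 25, 27, 29, 31, 33, 35, 37, 38, 40, 41, 42, 43, 44, 46, 47, 48, 50, 51, 52, 53, 55, 56, 58, 59, 60, 62, 63, 65, 66, 68, 69, 71, 72, 74, 76, 77, 79, 80, 82, 84, 85, 87, 89, 90, 92, 93, 95, 97, 98, 100, 101, 103, 104, 106, 107, 109, 110, 111, 113, 114, 115, 117, 118, 120, 121, 123, 124, 125, 127]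

def Ef (l : ℕ) : ℕ := Et.getD l 0

def Yt (s : ℕ) : ℕ := s * (s + 1) * dt s

/-- the integer form of the near inequality -/
def checkN (l e : ℕ) : Bool :=
  decide ((LU e + LU (e + 1) + LU (dt e)) * (Yt l * Yt e * t l * t e) + 1000000 * l * l * (Yt e - Yt l) * (t l * t e)
    ≤ (LL l + LL (l + 1) + LL (dt l)) * (Yt l * Yt e * t l * t e)
      + 1000000 * l * (l + 1) * (t e - t l) * (Yt l * Yt e))

/-- the integer form of the far inequality -/
def checkF (l e : ℕ) : Bool :=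
  decide ((LU (l + 1) + LU (e + 1)) * (max (Yt l) (t e + 2) * t l * t e) + 1000000 * (l * l - 1) * (t l * t e)
    ≤ LL (e - l) * (max (Yt l) (t e + 2) * t l * t e)
      + 1000000 * l * (l + 1) * (t e - t l) * (max (Yt l) (t e + 2)))

def special (l e : ℕ) : Bool :=
  (l == 1 && e == 2) || (l == 2 && e == 3) || (l == 2 && e == 4) || (l == 3 && e == 7)

theorem table_check_F : ∀ l < 80, 1 ≤ l → l < Ef l ∧ Ef l ≤ 127 ∧ checkF l (Ef l) = true := by
  decide +kernel

theorem table_check_N : ∀ l < 80, 1 ≤ l → ∀ k < Ef l - (l + 1), (checkN l (l + 1 + k) || special l (l + 1 + k)) = true := by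
  decide +kernel

theorem t_mono_check : ∀ i < 131, t i < t (i + 1) ∧ Yt i < Yt (i + 1) ∧ dt (i + 1) ≤ 132 ∧ 1 ≤ dt (i + 1) := by
  decide +kernel

theorem KN_of_check (h : IsChi c) {l e : ℕ} (hl : 1 ≤ l) (hle : l < e) (he : e ≤ 131)
    (hc : checkN l e = true) : KN c l e := by
  have hcl := h.table l (by omega)
  have hce := h.table e (by omega)
  have hdl := h.dd_table l (by omega)
  have hde := h.dd_table e (by omega)
  have hYl : YY c l = Yt l := by unfold YY Yt; rw [hdl]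
  have hYe : YY c e = Yt e := by unfold YY Yt; rw [hde]
  have hl0 : (0 : ℝ) < l := by exact_mod_cast hl
  have he0 : (0 : ℝ) < e := by exact_mod_cast (lt_trans hl hle)
  have m1 : c l < c e := h.strictMono hle
  have m2 : YY c l < YY c e := h.YY_strictMono hle
  have m3 : 1 ≤ c l := le_trans hl (h.le_self l)
  have m4 : 1 ≤ YY c l := h.YY_pos hl
  have dl1 : 1 ≤ dt l := by
    rw [← hdl]; obtain ⟨k, rfl⟩ : ∃ k, l = k + 1 := ⟨l - 1, by omega⟩
    exact h.dd_pos k
  have de1 : 1 ≤ dt e := by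
    rw [← hde]; obtain ⟨k, rfl⟩ : ∃ k, e = k + 1 := ⟨e - 1, by omega⟩
    exact h.dd_pos k
  have dle : ∀ i, 1 ≤ i → i ≤ 131 → dt i ≤ 132 := by
    intro i hi hi2
    obtain ⟨k, rfl⟩ : ∃ k, i = k + 1 := ⟨i - 1, by omega⟩
    exact (t_mono_check k (by omega)).2.2.1
  unfold checkN at hc
  simp only [decide_eq_true_eq] at hc
  rw [hcl, hce] at m1
  rw [hYl, hYe] at m2
  rw [hcl] at m3
  rw [hYl] at m4
  unfold KN
  rw [hYl, hYe, hcl, hce]
  have logYl : Real.log (Yt l) = Real.log l + Real.log ((l + 1 : ℕ) : ℝ) + Real.log (dt l) := by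
    unfold Yt
    have : (0 : ℝ) < dt l := by exact_mod_cast dl1
    push_cast
    rw [Real.log_mul (by positivity) (by positivity), Real.log_mul (by positivity) (by positivity)]
  have logYe : Real.log (Yt e) = Real.log e + Real.log ((e + 1 : ℕ) : ℝ) + Real.log (dt e) := by
    unfold Yt
    have : (0 : ℝ) < dt e := by exact_mod_cast de1
    push_cast
    rw [Real.log_mul (by positivity) (by positivity), Real.log_mul (by positivity) (by positivity)]
  have b1 := LL_le_log hl (by omega : l ≤ 132)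
  have b2 := LL_le_log (by omega : 1 ≤ l + 1) (by omega : l + 1 ≤ 132)
  have b3 := LL_le_log dl1 (dle l hl (by omega))
  have b4 := log_le_LU (by omega : 1 ≤ e) (by omega : e ≤ 132)
  have b5 := log_le_LU (by omega : 1 ≤ e + 1) (by omega : e + 1 ≤ 132)
  have b6 := log_le_LU de1 (dle e (by omega) he)
  rw [logYl, logYe]
  have hcR : (((LU e : ℝ) + LU (e + 1) + LU (dt e)) * (Yt l * Yt e * t l * t e) + 1000000 * l * l * ((Yt e : ℝ) - Yt l) * (t l * t e)
    ≤ ((LL l : ℝ) + LL (l + 1) + LL (dt l)) * (Yt l * Yt e * t l * t e)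
      + 1000000 * l * (l + 1) * ((t e : ℝ) - t l) * (Yt l * Yt e)) := by
    have : ((((LU e + LU (e + 1) + LU (dt e)) * (Yt l * Yt e * t l * t e) + 1000000 * l * l * (Yt e - Yt l) * (t l * t e) : ℕ)) : ℝ)
    ≤ (((LL l + LL (l + 1) + LL (dt l)) * (Yt l * Yt e * t l * t e)
      + 1000000 * l * (l + 1) * (t e - t l) * (Yt l * Yt e) : ℕ) : ℝ) := by exact_mod_cast hc
    push_cast [Nat.cast_sub m1.le, Nat.cast_sub m2.le] at this
    exact this
  have p1 : (0 : ℝ) < t l := by exact_mod_cast m3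
  have p2 : (0 : ℝ) < t e := by exact_mod_cast (lt_of_le_of_lt (by omega : 0 ≤ t l) m1)
  have p3 : (0 : ℝ) < Yt l := by exact_mod_cast m4
  have p4 : (0 : ℝ) < Yt e := by exact_mod_cast (lt_of_le_of_lt (by omega : 0 ≤ Yt l) m2)
  have key : ((LU e : ℝ) + LU (e + 1) + LU (dt e) - (LL l + LL (l + 1) + LL (dt l))) / 1000000
      + (l : ℝ) ^ 2 * (1 / (Yt l : ℝ) - 1 / (Yt e : ℝ)) ≤
      (l : ℝ) * (l + 1) * (1 / (t l : ℝ) - 1 / (t e : ℝ)) := by
    have e1 : 1 / (Yt l : ℝ) - 1 / (Yt e : ℝ) = ((Yt e : ℝ) - Yt l) / (Yt l * Yt e) := by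
      field_simp
    have e2 : 1 / (t l : ℝ) - 1 / (t e : ℝ) = ((t e : ℝ) - t l) / (t l * t e) := by
      field_simp
    rw [e1, e2]
    have e3 : (l : ℝ) * (l + 1) * (((t e : ℝ) - t l) / (t l * t e)) -
        (((LU e : ℝ) + LU (e + 1) + LU (dt e) - (LL l + LL (l + 1) + LL (dt l))) / 1000000
      + (l : ℝ) ^ 2 * (((Yt e : ℝ) - Yt l) / (Yt l * Yt e))) =
      (((LL l : ℝ) + LL (l + 1) + LL (dt l)) * (Yt l * Yt e * t l * t e)
      + 1000000 * l * (l + 1) * ((t e : ℝ) - t l) * (Yt l * Yt e) -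
      (((LU e : ℝ) + LU (e + 1) + LU (dt e)) * (Yt l * Yt e * t l * t e) + 1000000 * l * l * ((Yt e : ℝ) - Yt l) * (t l * t e)))
      / (1000000 * (Yt l * Yt e * t l * t e)) := by
      field_simp
      ring
    have e4 : 0 ≤ (((LL l : ℝ) + LL (l + 1) + LL (dt l)) * (Yt l * Yt e * t l * t e)
      + 1000000 * l * (l + 1) * ((t e : ℝ) - t l) * (Yt l * Yt e) -
      (((LU e : ℝ) + LU (e + 1) + LU (dt e)) * (Yt l * Yt e * t l * t e) + 1000000 * l * l * ((Yt e : ℝ) - Yt l) * (t l * t e)))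
      / (1000000 * (Yt l * Yt e * t l * t e)) := by
      apply div_nonneg _ (by positivity)
      linarith
    rw [← e3] at e4
    linarith
  linarith

theorem KF_of_check (h : IsChi c) {l e : ℕ} (hl : 1 ≤ l) (hle : l < e) (he : e ≤ 131)
    (hc : checkF l e = true) : KF c l e := by
  have hcl := h.table l (by omega)
  have hce := h.table e (by omega)
  have hdl := h.dd_table l (by omega)
  have hYl : YY c l = Yt l := by unfold YY Yt; rw [hdl]
  have hl0 : (0 : ℝ) < l := by exact_mod_cast hl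
  have he0 : (0 : ℝ) < e := by exact_mod_cast (lt_trans hl hle)
  have m1 : c l < c e := h.strictMono hle
  have m3 : 1 ≤ c l := le_trans hl (h.le_self l)
  unfold checkF at hc
  simp only [decide_eq_true_eq] at hc
  rw [hcl, hce] at m1
  rw [hcl] at m3
  unfold KF
  rw [hYl, hcl, hce]
  have b1 := log_le_LU (by omega : 1 ≤ l + 1) (by omega : l + 1 ≤ 132)
  have b2 := log_le_LU (by omega : 1 ≤ e + 1) (by omega : e + 1 ≤ 132)
  have b3 := LL_le_log (by omega : 1 ≤ e - l) (by omega : e - l ≤ 132)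
  rw [Nat.cast_sub hle.le] at b3
  push_cast at b1 b2
  set M := max (Yt l) (t e + 2) with hM
  have hMpos : 0 < M := lt_of_lt_of_le (by omega) (le_max_right _ _)
  have l2 : 1 ≤ l * l := Nat.mul_pos hl hl
  have hcR : (((LU (l + 1) : ℝ) + LU (e + 1)) * (M * t l * t e) + 1000000 * ((l : ℝ) * l - 1) * (t l * t e)
    ≤ (LL (e - l) : ℝ) * (M * t l * t e)
      + 1000000 * l * (l + 1) * ((t e : ℝ) - t l) * M) := by
    have : ((((LU (l + 1) + LU (e + 1)) * (M * t l * t e) + 1000000 * (l * l - 1) * (t l * t e) : ℕ)) : ℝ)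
    ≤ ((LL (e - l) * (M * t l * t e)
      + 1000000 * l * (l + 1) * (t e - t l) * M : ℕ) : ℝ) := by exact_mod_cast hc
    push_cast [Nat.cast_sub m1.le, Nat.cast_sub l2] at this
    exact this
  have p1 : (0 : ℝ) < t l := by exact_mod_cast m3
  have p2 : (0 : ℝ) < t e := by exact_mod_cast (lt_of_le_of_lt (by omega : 0 ≤ t l) m1)
  have p3 : (0 : ℝ) < M := by exact_mod_cast hMpos
  have key : ((LU (l + 1) : ℝ) + LU (e + 1) - LL (e - l)) / 1000000
      + ((l : ℝ) ^ 2 - 1) / M ≤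
      (l : ℝ) * (l + 1) * (1 / (t l : ℝ) - 1 / (t e : ℝ)) := by
    have e2 : 1 / (t l : ℝ) - 1 / (t e : ℝ) = ((t e : ℝ) - t l) / (t l * t e) := by
      field_simp
    rw [e2]
    have e3 : (l : ℝ) * (l + 1) * (((t e : ℝ) - t l) / (t l * t e)) -
        (((LU (l + 1) : ℝ) + LU (e + 1) - LL (e - l)) / 1000000 + ((l : ℝ) ^ 2 - 1) / M) =
      ((LL (e - l) : ℝ) * (M * t l * t e)
      + 1000000 * l * (l + 1) * ((t e : ℝ) - t l) * M -
      (((LU (l + 1) : ℝ) + LU (e + 1)) * (M * t l * t e) + 1000000 * ((l : ℝ) * l - 1) * (t l * t e)))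
      / (1000000 * (M * t l * t e)) := by
      field_simp
      ring
    have e4 : 0 ≤ ((LL (e - l) : ℝ) * (M * t l * t e)
      + 1000000 * l * (l + 1) * ((t e : ℝ) - t l) * M -
      (((LU (l + 1) : ℝ) + LU (e + 1)) * (M * t l * t e) + 1000000 * ((l : ℝ) * l - 1) * (t l * t e)))
      / (1000000 * (M * t l * t e)) := by
      apply div_nonneg _ (by positivity)
      linarith
    rw [← e3] at e4
    linarith
  linarith

/-- `KF` is monotone in `e`. -/
theorem KF_mono (h : IsChi c) {l e e' : ℕ} (hl : 1 ≤ l) (hle : l < e) (hee : e ≤ e')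
    (hF : KF c l e) : KF c l e' := by
  unfold KF at hF ⊢
  have hl0 : (0 : ℝ) < l := by exact_mod_cast hl
  have hl1 : (1 : ℝ) ≤ l := by exact_mod_cast hl
  have hle' : (l : ℝ) < e := by exact_mod_cast hle
  have hee' : (e : ℝ) ≤ e' := by exact_mod_cast hee
  have hc : (c e : ℝ) ≤ c e' := by exact_mod_cast h.strictMono.monotone hee
  have hc0 : (0 : ℝ) < c e := by
    have : 1 ≤ c e := le_trans (by omega) (h.le_self e)
    exact_mod_cast this
  have h1 : Real.log ((e' : ℝ) + 1) - Real.log ((e' : ℝ) - l) ≤ Real.log ((e : ℝ) + 1) - Real.log ((e : ℝ) - l) := by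
    rw [← Real.log_div (by positivity) (by linarith), ← Real.log_div (by positivity) (by linarith)]
    apply Real.log_le_log
    · apply div_pos (by positivity) (by linarith)
    · rw [div_le_div_iff₀ (by linarith) (by linarith)]
      nlinarith
  have h2 : ((l : ℝ) ^ 2 - 1) / ((max (YY c l) (c e' + 2) : ℕ) : ℝ) ≤ ((l : ℝ) ^ 2 - 1) / ((max (YY c l) (c e + 2) : ℕ) : ℝ) := by
    apply div_le_div_of_nonneg_left
    · nlinarith
    · have : 0 < max (YY c l) (c e + 2) := lt_of_lt_of_le (by omega) (le_max_right _ _)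
      exact_mod_cast this
    · have : max (YY c l) (c e + 2) ≤ max (YY c l) (c e' + 2) := by
        apply max_le_max le_rfl
        have := h.strictMono.monotone hee
        omega
      exact_mod_cast this
  have h3 : 1 / (c e' : ℝ) ≤ 1 / (c e : ℝ) := one_div_le_one_div_of_le hc0 hc
  have h4 : (l : ℝ) * (l + 1) * (1 / (c l : ℝ) - 1 / (c e : ℝ)) ≤ (l : ℝ) * (l + 1) * (1 / (c l : ℝ) - 1 / (c e' : ℝ)) := by
    apply mul_le_mul_of_nonneg_left _ (by positivity)
    linarith
  linarith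

end Pool.Agent.Lib.MP_4856b2_nt

end

/-! merged from Analytic -/

section

/-!
The key inequality for large `l`.
-/

namespace Pool.Agent.Lib.MP_4856b2_nt

variable {c : ℕ → ℕ}

theorem IsChi.B_low (h : IsChi c) {l : ℕ} (hl : 80 ≤ l) : 135 * c l ≤ 13 * (l * (l + 1)) := by
  have h1 := h.B_mono (l := 80) (by omega) hl
  have h2 : c 80 = 624 := by rw [h.table 80 (by omega)]; rfl
  rw [h2] at h1
  omega

theorem IsChi.d_up (h : IsChi c) {j : ℕ} (hj : 80 ≤ j) : 75 * dd c j ≤ 13 * (j + 1) := by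
  have h1 := h.B_low hj
  have h2 := h.L j (by omega)
  have h3 : j * (75 * dd c j) ≤ j * (13 * (j + 1)) := by nlinarith
  exact Nat.le_of_mul_le_mul_left h3 (by omega)

theorem IsChi.d_low (h : IsChi c) {j : ℕ} (hj : 80 ≤ j) : 12 ≤ dd c j := by
  have hd : dd c 80 ≤ dd c j := h.dd_mono hj
  have hd80 : dd c 80 = 12 := by rw [h.dd_table 80 (by omega)]; rfl
  omega

theorem log_add_two_sub {j : ℝ} (hj : 0 < j) : Real.log (j + 2) - Real.log j ≤ 2 / j := by
  rw [← Real.log_div (by positivity) (by positivity)]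
  have := Real.log_le_sub_one_of_pos (x := (j + 2) / j) (by positivity)
  have e : (j + 2) / j - 1 = 2 / j := by field_simp; ring
  linarith

theorem log_YY (c : ℕ → ℕ) {j : ℕ} (hj : 1 ≤ j) (hd : 1 ≤ dd c j) :
    Real.log (YY c j) = Real.log j + Real.log ((j : ℝ) + 1) + Real.log (dd c j) := by
  have h1 : (0 : ℝ) < j := by exact_mod_cast hj
  have h2 : (0 : ℝ) < dd c j := by exact_mod_cast hd
  unfold YY
  push_cast
  rw [Real.log_mul (by positivity) (by positivity), Real.log_mul (by positivity) (by positivity)]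

theorem near_real {l j d : ℝ} (hl : 80 ≤ l) (hlj : l ≤ j) (h5 : 5 * (j + 1) ≤ 6 * l)
    (hd : 12 ≤ d) (hd2 : 75 * d ≤ 13 * (j + 1)) :
    2 / j + 1 / d + l ^ 2 * (1 / (j * (j + 1) * d) - 1 / ((j + 1) * (j + 2) * (d + 1)))
      ≤ 9 / 4 * (l * (l + 1)) / (j * (j + 1) * d) := by
  have hj0 : 0 < j := by linarith
  have hd0 : 0 < d := by linarith
  have e1 : 1 / (j * (j + 1) * d) - 1 / ((j + 1) * (j + 2) * (d + 1)) =
      (j + 2 * d + 2) / ((j + 2) * (d + 1)) / (j * (j + 1) * d) := by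
    field_simp
    ring
  have e2 : 2 / j + 1 / d = (2 * (j + 1) * d + j * (j + 1)) / (j * (j + 1) * d) := by
    field_simp
  rw [e1, e2, ← mul_div_assoc, ← add_div]
  apply div_le_div_of_nonneg_right _ (by positivity)
  have e3 : (j + 2 * d + 2) / ((j + 2) * (d + 1)) ≤ 0.102 := by
    rw [div_le_iff₀ (by positivity)]
    nlinarith
  have e4 : l ^ 2 * ((j + 2 * d + 2) / ((j + 2) * (d + 1))) ≤ l ^ 2 * 0.102 :=
    mul_le_mul_of_nonneg_left e3 (by positivity)
  have e5 : 2 * (j + 1) * d ≤ 26 / 75 * (j + 1) ^ 2 := by nlinarith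
  have e6 : 25 * (j + 1) ^ 2 ≤ 36 * l ^ 2 := by
    have : (5 * (j + 1)) ^ 2 ≤ (6 * l) ^ 2 := by
      apply pow_le_pow_left₀ (by linarith) h5
    nlinarith
  nlinarith

theorem near_step (h : IsChi c) {l j : ℕ} (hl : 80 ≤ l) (hlj : l ≤ j) (h5 : 5 * (j + 1) ≤ 6 * l) :
    Real.log (YY c (j + 1)) - Real.log (YY c j)
      + (l : ℝ) ^ 2 * (1 / (YY c j : ℝ) - 1 / (YY c (j + 1) : ℝ))
    ≤ (l : ℝ) * (l + 1) * (1 / (c j : ℝ) - 1 / (c (j + 1) : ℝ)) := by
  have hd1 := h.d_low (j := j) (by omega)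
  have hd2 := h.d_up (j := j) (by omega)
  have hs := h.dd_succ_le j (by omega)
  have hs' := h.dd_le_succ j
  have hU := h.U j (by omega)
  have hU' := h.U (j + 1) (by omega)
  have hc := h.c_succ j
  have hcj : 1 ≤ c j := le_trans (by omega) (h.le_self j)
  rw [log_YY c (by omega) (by omega), log_YY c (by omega) (by omega)]
  have y1 : (YY c j : ℝ) = (j : ℝ) * (j + 1) * (dd c j) := by unfold YY; push_cast; ring
  have y2 : (YY c (j + 1) : ℝ) = ((j : ℝ) + 1) * (j + 2) * (dd c (j + 1)) := by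
    unfold YY; push_cast; ring
  rw [y1, y2]
  have hdR : (12 : ℝ) ≤ dd c j := by exact_mod_cast hd1
  have hdR2 : 75 * (dd c j : ℝ) ≤ 13 * ((j : ℝ) + 1) := by exact_mod_cast hd2
  have hsR : (dd c (j + 1) : ℝ) ≤ dd c j + 1 := by exact_mod_cast hs
  have hsR' : (dd c j : ℝ) ≤ dd c (j + 1) := by exact_mod_cast hs'
  have hUR : 3 * (c j : ℝ) ≤ 2 * ((j : ℝ) * dd c j) := by exact_mod_cast hU
  have hUR' : 3 * (c (j + 1) : ℝ) ≤ 2 * (((j : ℝ) + 1) * dd c (j + 1)) := by exact_mod_cast hU'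
  have hcR : (c (j + 1) : ℝ) = c j + dd c (j + 1) := by exact_mod_cast hc
  have hcjR : (1 : ℝ) ≤ c j := by exact_mod_cast hcj
  have hlR : (80 : ℝ) ≤ l := by exact_mod_cast hl
  have hljR : (l : ℝ) ≤ j := by exact_mod_cast hlj
  have h5R : 5 * ((j : ℝ) + 1) ≤ 6 * l := by exact_mod_cast h5
  set d : ℝ := (dd c j : ℝ) with hd
  set d' : ℝ := (dd c (j + 1) : ℝ) with hd'
  have hj0 : (0 : ℝ) < j := by linarith
  have hd0 : 0 < d := by linarith
  have hd0' : 0 < d' := by linarith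
  have hnear := near_real hlR hljR h5R hdR hdR2
  have l1 : Real.log (((j + 1 : ℕ) : ℝ) + 1) - Real.log j ≤ 2 / j := by
    have := log_add_two_sub hj0
    have e : (((j + 1 : ℕ) : ℝ) + 1) = (j : ℝ) + 2 := by push_cast; ring
    rw [e]; exact this
  have l2 : Real.log d' - Real.log d ≤ 1 / d := by
    rw [← Real.log_div hd0'.ne' hd0.ne']
    have a := Real.log_le_sub_one_of_pos (x := d' / d) (by positivity)
    have b : d' / d - 1 ≤ 1 / d := by
      rw [← sub_nonneg]
      have : 1 / d - (d' / d - 1) = (d + 1 - d') / d := by field_simp; ring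
      rw [this]
      apply div_nonneg _ hd0.le
      linarith
    linarith
  have l3 : ((j + 1 : ℕ) : ℝ) = (j : ℝ) + 1 := by push_cast; ring
  rw [l3]
  rw [l3] at l1
  have l4 : 1 / (((j : ℝ) + 1) * (j + 2) * (d + 1)) ≤ 1 / (((j : ℝ) + 1) * (j + 2) * d') := by
    apply one_div_le_one_div_of_le (by positivity)
    apply mul_le_mul_of_nonneg_left hsR (by positivity)
  have l5 : (l : ℝ) ^ 2 * (1 / ((j : ℝ) * (j + 1) * d) - 1 / (((j : ℝ) + 1) * (j + 2) * d')) ≤
      (l : ℝ) ^ 2 * (1 / ((j : ℝ) * (j + 1) * d) - 1 / (((j : ℝ) + 1) * (j + 2) * (d + 1))) := by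
    apply mul_le_mul_of_nonneg_left _ (by positivity)
    linarith
  have l6 : 9 / 4 * ((l : ℝ) * (l + 1)) / ((j : ℝ) * (j + 1) * d) ≤
      (l : ℝ) * (l + 1) * (1 / (c j : ℝ) - 1 / (c (j + 1) : ℝ)) := by
    have hcpos : (0 : ℝ) < c j := by linarith
    have hcpos' : (0 : ℝ) < c (j + 1) := by linarith
    have e1 : 1 / (c j : ℝ) - 1 / (c (j + 1) : ℝ) = d' / (c j * c (j + 1)) := by
      rw [hcR]; rw [hcR] at hcpos'; field_simp; ring
    have e2 : 9 / 4 * ((l : ℝ) * (l + 1)) / ((j : ℝ) * (j + 1) * d) =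
        (l : ℝ) * (l + 1) * (9 / 4 / ((j : ℝ) * (j + 1) * d)) := by ring
    rw [e1, e2]
    apply mul_le_mul_of_nonneg_left _ (by positivity)
    rw [div_le_div_iff₀ (by positivity) (by positivity)]
    have p : (3 * (c j : ℝ)) * (3 * (c (j + 1) : ℝ)) ≤ (2 * ((j : ℝ) * d)) * (2 * (((j : ℝ) + 1) * d')) :=
      mul_le_mul hUR hUR' (by positivity) (by positivity)
    nlinarith
  linarith

theorem KN_near (h : IsChi c) {l e : ℕ} (hl : 80 ≤ l) (hle : l ≤ e) (h5 : 5 * e ≤ 6 * l) : KN c l e := by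
  induction e, hle using Nat.le_induction with
  | base => unfold KN; simp
  | succ j hlj ih =>
    have ih := ih (by omega)
    have hs := near_step h hl hlj h5
    unfold KN at ih ⊢
    have e1 : (l : ℝ) ^ 2 * (1 / (YY c l : ℝ) - 1 / (YY c (j + 1) : ℝ)) =
      (l : ℝ) ^ 2 * (1 / (YY c l : ℝ) - 1 / (YY c j : ℝ)) + (l : ℝ) ^ 2 * (1 / (YY c j : ℝ) - 1 / (YY c (j + 1) : ℝ)) := by
      ring
    have e2 : (l : ℝ) * (l + 1) * (1 / (c l : ℝ) - 1 / (c (j + 1) : ℝ)) =
      (l : ℝ) * (l + 1) * (1 / (c l : ℝ) - 1 / (c j : ℝ)) + (l : ℝ) * (l + 1) * (1 / (c j : ℝ) - 1 / (c (j + 1) : ℝ)) := by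
      ring
    rw [e1, e2]
    linarith

theorem IsChi.two_mul_c (h : IsChi c) (s : ℕ) : 2 * c s ≤ c (2 * s) := by
  have h1 := h.sub_le 0 s
  have h2 := h.le_sub s s
  have h3 := h.dd_le_succ s
  rw [h.zero] at h1
  simp only [zero_add] at h1
  have h4 : s * dd c s ≤ s * dd c (s + 1) := Nat.mul_le_mul_left _ h3
  have e : s + s = 2 * s := by ring
  rw [e] at h2
  omega

theorem IsChi.two_mul_II (h : IsChi c) (s : ℕ) : 2 * II c s ≤ II c (2 * s) := by
  unfold II
  have h1 := h.two_mul_c s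
  have h2 : dd c s ≤ dd c (2 * s) := h.dd_mono (by omega)
  have h3 : 2 * s * dd c s ≤ 2 * s * dd c (2 * s) := Nat.mul_le_mul_left _ h2
  have e : 2 * s * dd c s = 2 * (s * dd c s) := by ring
  omega

theorem IsChi.dd_two_mul (h : IsChi c) {l : ℕ} (hl : 1 ≤ l) : dd c (2 * l) ≤ 2 * dd c l := by
  obtain ⟨k, k1, k2, _, k4, _⟩ := h.cell l hl
  obtain ⟨m, m1, m2, _, m4, _⟩ := h.cell (2 * l) (by omega)
  have h1 := h.two_mul_II (k + 1)
  have h2 : II c m < II c (2 * (k + 1)) := by omega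
  have h3 : m < 2 * (k + 1) := h.II_strictMono.lt_iff_lt.1 h2
  omega

theorem rho_bound (h : IsChi c) {l e : ℕ} (hl : 80 ≤ l) (hle : l ≤ e) {r : ℝ} (hr : 0 < r)
    (hre : r ^ 2 * (l : ℝ) ^ 3 ≤ (e : ℝ) ^ 3) : r * c l ≤ c e := by
  have hg := h.growth (by omega : 30 ≤ l) hle
  have hgR : (c l : ℝ) ^ 2 * (e : ℝ) ^ 3 ≤ (c e : ℝ) ^ 2 * (l : ℝ) ^ 3 := by exact_mod_cast hg
  have hl0 : (0 : ℝ) < (l : ℝ) ^ 3 := by
    have : 0 < l := by omega
    have : (0 : ℝ) < l := by exact_mod_cast this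
    positivity
  have h1 : (r * c l) ^ 2 ≤ (c e : ℝ) ^ 2 := by
    have h2 : (r * c l) ^ 2 * (l : ℝ) ^ 3 ≤ (c e : ℝ) ^ 2 * (l : ℝ) ^ 3 := by
      calc (r * c l) ^ 2 * (l : ℝ) ^ 3 = (c l : ℝ) ^ 2 * (r ^ 2 * (l : ℝ) ^ 3) := by ring
        _ ≤ (c l : ℝ) ^ 2 * (e : ℝ) ^ 3 := mul_le_mul_of_nonneg_left hre (by positivity)
        _ ≤ _ := hgR
    exact le_of_mul_le_mul_right h2 hl0
  exact (abs_le_of_sq_le_sq' h1 (by positivity)).2 |> fun q => q

theorem rhs_bound (h : IsChi c) {l e : ℕ} (hl : 80 ≤ l) (hle : l ≤ e) {r : ℝ} (hr : 0 < r)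
    (hre : r ^ 2 * (l : ℝ) ^ 3 ≤ (e : ℝ) ^ 3) :
    ((l : ℝ) * (l + 1) / c l) * (1 - 1 / r) ≤ (l : ℝ) * (l + 1) * (1 / (c l : ℝ) - 1 / (c e : ℝ)) := by
  have h1 := rho_bound h hl hle hr hre
  have hcl : (0 : ℝ) < c l := by
    have : 1 ≤ c l := le_trans (by omega) (h.le_self l)
    exact_mod_cast this
  have h2 : 1 / (c e : ℝ) ≤ 1 / (r * c l) := one_div_le_one_div_of_le (by positivity) h1
  have e1 : ((l : ℝ) * (l + 1) / c l) * (1 - 1 / r) = (l : ℝ) * (l + 1) * (1 / (c l : ℝ) - 1 / (r * c l)) := by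
    field_simp
  rw [e1]
  apply mul_le_mul_of_nonneg_left _ (by positivity)
  linarith

theorem B_lowR (h : IsChi c) {l : ℕ} (hl : 80 ≤ l) : (135 / 13 : ℝ) ≤ (l : ℝ) * (l + 1) / c l := by
  have h1 := h.B_low hl
  have hcl : (0 : ℝ) < c l := by
    have : 1 ≤ c l := le_trans (by omega) (h.le_self l)
    exact_mod_cast this
  have h2 : 135 * (c l : ℝ) ≤ 13 * ((l : ℝ) * (l + 1)) := by exact_mod_cast h1
  rw [div_le_div_iff₀ (by norm_num) hcl]
  linarith

theorem IsChi.YY_two_mul (h : IsChi c) {l : ℕ} (hl : 1 ≤ l) : YY c (2 * l) ≤ 8 * YY c l := by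
  have h1 := h.dd_two_mul hl
  unfold YY
  calc 2 * l * (2 * l + 1) * dd c (2 * l) ≤ 2 * l * (2 * l + 1) * (2 * dd c l) := Nat.mul_le_mul_left _ h1
    _ ≤ 2 * l * (2 * l + 2) * (2 * dd c l) := by
      apply Nat.mul_le_mul_right
      apply Nat.mul_le_mul_left
      omega
    _ = 8 * (l * (l + 1) * dd c l) := by ring

theorem err_bound (h : IsChi c) {l : ℕ} (hl : 80 ≤ l) : (l : ℝ) ^ 2 * (1 / (YY c l : ℝ)) ≤ 1 / 12 := by
  have hd := h.d_low hl
  have hdR : (12 : ℝ) ≤ dd c l := by exact_mod_cast hd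
  have hlR : (80 : ℝ) ≤ l := by exact_mod_cast hl
  have e : (YY c l : ℝ) = (l : ℝ) * (l + 1) * dd c l := by unfold YY; push_cast; ring
  rw [e, mul_one_div, div_le_div_iff₀ (by positivity) (by norm_num)]
  nlinarith

theorem KN_mid (h : IsChi c) {l e : ℕ} (hl : 80 ≤ l) (h5 : 6 * l < 5 * e) (h2 : e ≤ 2 * l) : KN c l e := by
  have hle : l ≤ e := by omega
  have hlR : (80 : ℝ) ≤ l := by exact_mod_cast hl
  have h5R : 6 * (l : ℝ) ≤ 5 * e := by
    have : 6 * l ≤ 5 * e := h5.le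
    exact_mod_cast this
  have hre : (1.3145 : ℝ) ^ 2 * (l : ℝ) ^ 3 ≤ (e : ℝ) ^ 3 := by
    have h1 : ((6 / 5 : ℝ) * l) ^ 3 ≤ (e : ℝ) ^ 3 := by
      apply pow_le_pow_left₀ (by positivity)
      linarith
    have h3 : ((6 / 5 : ℝ) * l) ^ 3 = 1.728 * (l : ℝ) ^ 3 := by ring
    have h4 : (0 : ℝ) ≤ (l : ℝ) ^ 3 := by positivity
    nlinarith
  have h6 := rhs_bound h hl hle (by norm_num) hre
  have h7 := B_lowR h hl
  have h8 : (135 / 13 : ℝ) * (1 - 1 / 1.3145) ≤ ((l : ℝ) * (l + 1) / c l) * (1 - 1 / 1.3145) :=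
    mul_le_mul_of_nonneg_right h7 (by norm_num)
  have h9 := err_bound h hl
  have hY1 : YY c e ≤ 8 * YY c l := le_trans (h.YY_strictMono.monotone h2) (h.YY_two_mul (by omega))
  have hYl : (0 : ℝ) < YY c l := by exact_mod_cast (h.YY_pos (l := l) (by omega))
  have hYe : (0 : ℝ) < YY c e := by exact_mod_cast (h.YY_pos (l := e) (by omega))
  have hY2 : (YY c e : ℝ) ≤ 8 * YY c l := by exact_mod_cast hY1
  have h10 : Real.log (YY c e) ≤ 3 * Real.log 2 + Real.log (YY c l) := by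
    have a := Real.log_le_log hYe hY2
    rw [Real.log_mul (by norm_num) hYl.ne'] at a
    have b : Real.log 8 = 3 * Real.log 2 := by
      rw [show (8 : ℝ) = 2 ^ (3 : ℕ) by norm_num, Real.log_pow]; norm_num
    linarith
  have h11 := Real.log_two_lt_d9
  unfold KN
  have h12 : (l : ℝ) ^ 2 * (1 / (YY c l : ℝ) - 1 / (YY c e : ℝ)) ≤ (l : ℝ) ^ 2 * (1 / (YY c l : ℝ)) := by
    apply mul_le_mul_of_nonneg_left _ (by positivity)
    have : 0 ≤ 1 / (YY c e : ℝ) := by positivity
    linarith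
  have h13 : (3 : ℝ) * 0.6931471808 + 1 / 12 ≤ (135 / 13 : ℝ) * (1 - 1 / 1.3145) := by norm_num
  linarith

/-- the common real inequality used for `e = 2 l` -/
theorem F4 (h : IsChi c) {l : ℕ} (hl : 80 ≤ l) :
    Real.log ((l : ℝ) + 1) + Real.log (2 * (l : ℝ) + 1) - Real.log l + 1 / 12 ≤
      ((l : ℝ) * (l + 1) / c l) * (1 - 1 / 2.828) := by
  have hlR : (80 : ℝ) ≤ l := by exact_mod_cast hl
  have hl0 : (0 : ℝ) < l := by linarith
  have h2 := Real.log_two_lt_d9
  have e1 : Real.log ((l : ℝ) + 1) + Real.log (2 * (l : ℝ) + 1) - Real.log l =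
      Real.log ((l + 1) * (2 * l + 1) / l) := by
    rw [Real.log_div (by positivity) (by positivity), Real.log_mul (by positivity) (by positivity)]
  rw [e1]
  rcases Nat.lt_or_ge l 351 with hlt | hge
  · have h7 := B_lowR h hl
    have h8 : (135 / 13 : ℝ) * (1 - 1 / 2.828) ≤ ((l : ℝ) * (l + 1) / c l) * (1 - 1 / 2.828) :=
      mul_le_mul_of_nonneg_right h7 (by norm_num)
    have hltR : (l : ℝ) ≤ 350 := by
      have : l ≤ 350 := by omega
      exact_mod_cast this
    have a1 : ((l : ℝ) + 1) * (2 * l + 1) / l ≤ 707 := by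
      rw [div_le_iff₀ hl0]
      nlinarith
    have a2 := Real.log_le_log (by positivity) a1
    have a3 : Real.log 707 = 9 * Real.log 2 + Real.log (707 / 512) := by
      rw [Real.log_div (by norm_num) (by norm_num), show (512 : ℝ) = 2 ^ (9 : ℕ) by norm_num, Real.log_pow]
      push_cast; ring
    have a4 := log_le_pade (x := (707 / 512 : ℝ)) (by norm_num)
    have a5 : ((707 / 512 : ℝ) ^ 2 + 4 * (707 / 512) - 5) / (4 * (707 / 512) + 2) ≤ 0.3231 := by norm_num
    have a6 : (9 : ℝ) * 0.6931471808 + 0.3231 + 1 / 12 ≤ (135 / 13 : ℝ) * (1 - 1 / 2.828) := by norm_num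
    linarith
  · obtain ⟨k, k1, k2, k3, k4, k5⟩ := h.cell l (by omega)
    have hk : 31 ≤ k := by
      by_contra hk
      have h1 : II c (k + 1) ≤ II c 31 := h.II_strictMono.monotone (by omega)
      have h3 : II c 31 = 350 := by
        unfold II dd
        rw [h.table 31 (by omega), h.table (31 - 1) (by omega)]; rfl
      omega
    set d := dd c k with hd
    have hd7 : 7 ≤ d := by
      have h1 : dd c 31 ≤ dd c k := h.dd_mono hk
      have h3 : dd c 31 = 7 := by rw [h.dd_table 31 (by omega)]; rfl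
      omega
    have hU := h.U l (by omega)
    rw [k4] at hU
    have hL := h.L k (by omega)
    have hUk := h.U k hk
    have hsk := h.star k (by omega)
    -- lower bound for `l + 1`
    have hlow : 14 * (k * d) ≤ 9 * (l + 1) := by
      unfold II at k1
      rw [← hd] at k1 hL
      omega
    -- upper bound for `l`
    have hup : l ≤ 2 * (k * d) := by
      rw [h.II_succ] at k2
      rw [← hd] at hUk
      omega
    have hkd : k + d ≤ d * d := by
      obtain ⟨m, m1, m2, m3, m4, m5⟩ := h.cell k (by omega)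
      have hm : 6 ≤ m := by
        by_contra hm
        have h1 : II c (m + 1) ≤ II c 6 := h.II_strictMono.monotone (by omega)
        rw [h.II_six] at h1
        omega
      have hsm := h.star m hm
      rw [h.II_succ] at m2
      have hB := h.B_mono (l := 6) le_rfl hm
      have h6 : c 6 = 12 := by rw [h.table 6 (by omega)]; rfl
      rw [h6] at hB
      have : d = m + 1 := m4
      rw [this]
      nlinarith
    have hB : (7 / 3 : ℝ) * (31 / 32) * d ≤ (l : ℝ) * (l + 1) / c l := by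
      have hcl : (0 : ℝ) < c l := by
        have : 1 ≤ c l := le_trans (by omega) (h.le_self l)
        exact_mod_cast this
      rw [le_div_iff₀ hcl]
      have a1 : 3 * (c l : ℝ) ≤ 2 * ((l : ℝ) * (k + 1)) := by exact_mod_cast hU
      have a2 : 14 * ((k : ℝ) * d) ≤ 9 * ((l : ℝ) + 1) := by exact_mod_cast hlow
      have a3 : (31 : ℝ) ≤ k := by exact_mod_cast hk
      have a4 : (0 : ℝ) < d := by
        have : 0 < d := by omega
        exact_mod_cast this
      have a5 : (7 / 3 : ℝ) * (31 / 32) * d * c l ≤ (7 / 3 : ℝ) * (31 / 32) * d * (2 / 3 * ((l : ℝ) * (k + 1))) := by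
        apply mul_le_mul_of_nonneg_left _ (by positivity)
        linarith
      have a6 : (31 / 32 : ℝ) * (k + 1) ≤ k := by linarith
      have a7 : (7 / 3 : ℝ) * (31 / 32) * d * (2 / 3 * ((l : ℝ) * (k + 1))) = (14 / 9) * ((l : ℝ) * d) * (31 / 32 * (k + 1)) := by
        ring
      have a8 : (14 / 9 : ℝ) * ((l : ℝ) * d) * (31 / 32 * (k + 1)) ≤ (14 / 9) * ((l : ℝ) * d) * k :=
        mul_le_mul_of_nonneg_left a6 (by positivity)
      have a9 : (14 / 9 : ℝ) * ((l : ℝ) * d) * k = l * (14 / 9 * (k * d)) := by ring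
      have a10 : (l : ℝ) * (14 / 9 * (k * d)) ≤ l * (l + 1) := by
        apply mul_le_mul_of_nonneg_left _ hl0.le
        linarith
      linarith
    have hB2 : (7 / 3 : ℝ) * (31 / 32) * d * (1 - 1 / 2.828) ≤ ((l : ℝ) * (l + 1) / c l) * (1 - 1 / 2.828) :=
      mul_le_mul_of_nonneg_right hB (by norm_num)
    have hd7R : (7 : ℝ) ≤ d := by exact_mod_cast hd7
    have hd0 : (0 : ℝ) < d := by linarith
    have b1 : ((l : ℝ) + 1) * (2 * l + 1) / l ≤ 4 * (d : ℝ) ^ 3 := by
      rw [div_le_iff₀ hl0]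
      have hupR : (l : ℝ) ≤ 2 * ((k : ℝ) * d) := by exact_mod_cast hup
      have hkdR : (k : ℝ) + d ≤ (d : ℝ) * d := by exact_mod_cast hkd
      have c1 : (k : ℝ) * d ≤ (d * d - d) * d := by
        apply mul_le_mul_of_nonneg_right _ hd0.le
        linarith
      have c2 : (l : ℝ) ≤ 2 * (d : ℝ) ^ 3 - 2 * (d : ℝ) ^ 2 := by nlinarith
      have c3 : 2 * (l : ℝ) + 4 ≤ 4 * (d : ℝ) ^ 3 := by nlinarith
      have c4 : (2 * (l : ℝ) + 4) * l ≤ 4 * (d : ℝ) ^ 3 * l := mul_le_mul_of_nonneg_right c3 hl0.le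
      nlinarith
    have b2 := Real.log_le_log (by positivity) b1
    have b3 : Real.log (4 * (d : ℝ) ^ 3) = 2 * Real.log 2 + 3 * Real.log d := by
      rw [Real.log_mul (by norm_num) (by positivity), Real.log_pow, show (4 : ℝ) = 2 ^ (2 : ℕ) by norm_num, Real.log_pow]
      push_cast; ring
    have b4 : Real.log d ≤ 3 * Real.log 2 + (d / 8 - 1) := by
      have c1 := Real.log_le_sub_one_of_pos (x := (d : ℝ) / 8) (by positivity)
      rw [Real.log_div (by positivity) (by norm_num), show (8 : ℝ) = 2 ^ (3 : ℕ) by norm_num, Real.log_pow] at c1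
      push_cast at c1
      linarith
    have b5 : (11 : ℝ) * 0.6931471808 + 3 * (d / 8 - 1) + 1 / 12 ≤ (7 / 3 : ℝ) * (31 / 32) * d * (1 - 1 / 2.828) := by
      have : (7 / 3 : ℝ) * (31 / 32) * d * (1 - 1 / 2.828) = ((7 / 3 : ℝ) * (31 / 32) * (1 - 1 / 2.828)) * d := by ring
      rw [this]
      have c2 : (1.46 : ℝ) ≤ ((7 / 3 : ℝ) * (31 / 32) * (1 - 1 / 2.828)) := by norm_num
      nlinarith
    linarith

theorem KF_two (h : IsChi c) {l : ℕ} (hl : 80 ≤ l) : KF c l (2 * l) := by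
  have hlR : (80 : ℝ) ≤ l := by exact_mod_cast hl
  have hl0 : (0 : ℝ) < l := by linarith
  have hre : (2.828 : ℝ) ^ 2 * (l : ℝ) ^ 3 ≤ ((2 * l : ℕ) : ℝ) ^ 3 := by
    push_cast
    have h4 : (0 : ℝ) ≤ (l : ℝ) ^ 3 := by positivity
    have h5 : (2 * (l : ℝ)) ^ 3 = 8 * (l : ℝ) ^ 3 := by ring
    nlinarith
  have h6 := rhs_bound h hl (by omega : l ≤ 2 * l) (by norm_num) hre
  have h7 := F4 h hl
  have h9 := err_bound h hl
  unfold KF
  have hYl : (0 : ℝ) < YY c l := by exact_mod_cast (h.YY_pos (l := l) (by omega))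
  have h10 : ((l : ℝ) ^ 2 - 1) / ((max (YY c l) (c (2 * l) + 2) : ℕ) : ℝ) ≤ (l : ℝ) ^ 2 * (1 / (YY c l : ℝ)) := by
    rw [mul_one_div]
    apply div_le_div₀ (by positivity) (by linarith) hYl
    have : YY c l ≤ max (YY c l) (c (2 * l) + 2) := le_max_left _ _
    exact_mod_cast this
  have e1 : ((2 * l : ℕ) : ℝ) - l = l := by push_cast; ring
  have e2 : ((2 * l : ℕ) : ℝ) + 1 = 2 * (l : ℝ) + 1 := by push_cast; ring
  rw [e1, e2]
  linarith

/-- sums for the special pairs -/
def spec (l A B : ℕ) : ℚ := ∑ y ∈ Finset.Ico A B, (lam l y : ℚ) * (1 / ((y : ℚ) * (y + 1)))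

theorem spec12 : spec 1 4 6 ≤ 1 / 1 - 1 / 2 := by decide +kernel
theorem spec23 : spec 2 6 24 ≤ 1 / 2 - 1 / 4 := by decide +kernel
theorem spec24 : spec 2 8 40 ≤ 1 / 2 - 1 / 6 := by decide +kernel
theorem spec37 : spec 3 24 168 ≤ 1 / 4 - 1 / 15 := by decide +kernel

theorem spec_cast (l A B : ℕ) : ((spec l A B : ℚ) : ℝ) = ∑ y ∈ Finset.Ico A B, (lam l y : ℝ) * v y := by
  unfold spec v
  push_cast
  rfl

theorem KI_spec (h : IsChi c) {l e A B : ℕ} (hl : 1 ≤ l) (hle : l < e) {X : ℕ} (hX : c e + 1 ≤ X)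
    (S : Finset ℕ) (hS : ∀ y ∈ S, YY c l ≤ y ∧ y < YY c e ∧ X < y ∧ (e - l) * y < (l + 1) * (e + 1) * X)
    (he : e < 132)
    (hA : A = max (Yt l) (t e + 2)) (hB : B = Yt e)
    (hs : spec l A B ≤ 1 / (t l : ℚ) - 1 / (t e : ℚ)) :
    ∑ y ∈ S, (lam l y : ℝ) * v y ≤ 1 / (c l : ℝ) - 1 / (c e : ℝ) := by
  have hsR : ((spec l A B : ℚ) : ℝ) ≤ ((1 / (t l : ℚ) - 1 / (t e : ℚ) : ℚ) : ℝ) := by exact_mod_cast hs
  rw [spec_cast] at hsR
  push_cast at hsR
  have hcl := h.table l (by omega)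
  have hce := h.table e (by omega)
  have hYl : YY c l = Yt l := by unfold YY Yt; rw [h.dd_table l (by omega)]
  have hYe : YY c e = Yt e := by unfold YY Yt; rw [h.dd_table e (by omega)]
  rw [hcl, hce]
  refine le_trans ?_ hsR
  apply Finset.sum_le_sum_of_subset_of_nonneg
  · intro y hy
    obtain ⟨h1, h2, h3, h4⟩ := hS y hy
    rw [Finset.mem_Ico, hA, hB]
    refine ⟨max_le (by omega) (by omega), by omega⟩
  · intro y _ _
    exact term_nonneg l y

/-- the key inequality -/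
theorem KI (h : IsChi c) {l e : ℕ} (hl : 1 ≤ l) (hle : l < e) {X : ℕ} (hX : c e + 1 ≤ X)
    (S : Finset ℕ) (hS : ∀ y ∈ S, YY c l ≤ y ∧ y < YY c e ∧ X < y ∧ (e - l) * y < (l + 1) * (e + 1) * X) :
    ∑ y ∈ S, (lam l y : ℝ) * v y ≤ 1 / (c l : ℝ) - 1 / (c e : ℝ) := by
  rcases Nat.lt_or_ge l 80 with h80 | h80
  · obtain ⟨f1, f2, f3⟩ := table_check_F l h80 hl
    rcases Nat.lt_or_ge e (Ef l) with he | he
    · have hN := table_check_N l h80 hl (e - (l + 1)) (by omega)
      have e1 : l + 1 + (e - (l + 1)) = e := by omega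
      rw [e1] at hN
      rcases Bool.or_eq_true_iff.1 hN with hN | hN
      · exact KI_N h hl hle (KN_of_check h hl hle (by omega) hN) S (fun y hy => ⟨(hS y hy).1, (hS y hy).2.1⟩)
      · unfold special at hN
        simp only [Bool.or_eq_true, Bool.and_eq_true, beq_iff_eq] at hN
        rcases hN with ((hN | hN) | hN) | hN
        · obtain ⟨rfl, rfl⟩ := hN
          exact KI_spec (A := 4) (B := 6) h hl hle hX S hS (by omega) (by decide +kernel) (by decide +kernel) spec12
        · obtain ⟨rfl, rfl⟩ := hN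
          exact KI_spec (A := 6) (B := 24) h hl hle hX S hS (by omega) (by decide +kernel) (by decide +kernel) spec23
        · obtain ⟨rfl, rfl⟩ := hN
          exact KI_spec (A := 8) (B := 40) h hl hle hX S hS (by omega) (by decide +kernel) (by decide +kernel) spec24
        · obtain ⟨rfl, rfl⟩ := hN
          exact KI_spec (A := 24) (B := 168) h hl hle hX S hS (by omega) (by decide +kernel) (by decide +kernel) spec37
    · exact KI_F h hl hle (KF_mono h hl f1 he (KF_of_check h hl f1 (by omega) f3)) hX S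
        (fun y hy => ⟨(hS y hy).1, (hS y hy).2.2⟩)
  · rcases Nat.lt_or_ge (6 * l) (5 * e) with h5 | h5
    · rcases Nat.lt_or_ge (2 * l) e with h2 | h2
      · exact KI_F h hl hle (KF_mono h hl (by omega : l < 2 * l) h2.le (KF_two h h80)) hX S
          (fun y hy => ⟨(hS y hy).1, (hS y hy).2.2⟩)
      · exact KI_N h hl hle (KN_mid h h80 h5 h2) S (fun y hy => ⟨(hS y hy).1, (hS y hy).2.1⟩)
    · exact KI_N h hl hle (KN_near h h80 hle.le h5) S (fun y hy => ⟨(hS y hy).1, (hS y hy).2.1⟩)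

end Pool.Agent.Lib.MP_4856b2_nt

end

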