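import Pool.Agent.Lib.MP_4856b2_nt.PartB

/-! merged from Main -/

section

/-!
Comparison of the partial sums of reciprocals.
-/

namespace Pool.Agent.Lib.MP_4856b2_nt

open Finset

variable {c a : ℕ → ℕ}

theorem C1_check : ∀ e < 31, 1 ≤ e → t e * (t (e + 1) - 1) * (Yt (e + 1) - Yt e) ≤ Yt e * Yt (e + 1) := by
  decide +kernel

theorem C1 (h : IsChi c) {e : ℕ} (he : 1 ≤ e) :
    c e * (c (e + 1) - 1) * (YY c (e + 1) - YY c e) ≤ YY c e * YY c (e + 1) := by
  rcases Nat.lt_or_ge e 31 with h31 | h31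
  · have e1 : YY c e = Yt e := by unfold YY Yt; rw [h.dd_table e (by omega)]
    have e2 : YY c (e + 1) = Yt (e + 1) := by unfold YY Yt; rw [h.dd_table (e + 1) (by omega)]
    rw [e1, e2, h.table e (by omega), h.table (e + 1) (by omega)]
    exact C1_check e h31 he
  · have hU := h.U e h31
    have hU' := h.U (e + 1) (by omega)
    have hs := h.dd_succ_le e he
    have hs' := h.dd_le_succ e
    have hL := h.L e he
    have hB := h.B_mono (l := 6) (by omega) (by omega : 6 ≤ e)
    have h6 : c 6 = 12 := by rw [h.table 6 (by omega)]; rfl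
    rw [h6] at hB
    -- `35 d ≤ 18 (e+1)`
    have hd : 35 * dd c e ≤ 18 * (e + 1) := by
      have h1 : e * (35 * dd c e) ≤ e * (18 * (e + 1)) := by nlinarith
      exact Nat.le_of_mul_le_mul_left h1 (by omega)
    set d := dd c e with hdd
    set d' := dd c (e + 1) with hdd'
    have hY : YY c e = e * (e + 1) * d := rfl
    have hY' : YY c (e + 1) = (e + 1) * (e + 2) * d' := rfl
    have hprod : 9 * (c e * c (e + 1)) ≤ 4 * ((e * d) * ((e + 1) * d')) := by
      have := Nat.mul_le_mul hU hU'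
      nlinarith
    have hdiff : 4 * (YY c (e + 1) - YY c e) ≤ 9 * ((e + 1) * (e + 2)) := by
      rcases Nat.eq_or_lt_of_le hs' with h1 | h1
      · have : YY c (e + 1) - YY c e = 2 * ((e + 1) * d) := by
          rw [hY, hY', ← h1]
          apply Nat.sub_eq_of_eq_add
          ring
        rw [this]
        nlinarith
      · have h2 : d' = d + 1 := by omega
        have : YY c (e + 1) - YY c e = (e + 1) * (2 * d + (e + 2)) := by
          rw [hY, hY', h2]
          apply Nat.sub_eq_of_eq_add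
          ring
        rw [this]
        nlinarith
    have h9 : 36 * (c e * (c (e + 1) - 1) * (YY c (e + 1) - YY c e)) ≤ 36 * (YY c e * YY c (e + 1)) := by
      calc 36 * (c e * (c (e + 1) - 1) * (YY c (e + 1) - YY c e))
          ≤ 36 * (c e * c (e + 1) * (YY c (e + 1) - YY c e)) := by
            apply Nat.mul_le_mul_left
            apply Nat.mul_le_mul_right
            apply Nat.mul_le_mul_left
            omega
        _ = (9 * (c e * c (e + 1))) * (4 * (YY c (e + 1) - YY c e)) := by ring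
        _ ≤ (4 * ((e * d) * ((e + 1) * d'))) * (9 * ((e + 1) * (e + 2))) := Nat.mul_le_mul hprod hdiff
        _ = 36 * (YY c e * YY c (e + 1)) := by rw [hY, hY']; ring
    omega

theorem intercept (h : IsChi c) {e x : ℕ} (he : 1 ≤ e) (h1 : c e ≤ x) (h2 : x < c (e + 1)) :
    ((x - c e : ℕ) : ℝ) * (1 / (YY c e : ℝ) - 1 / (YY c (e + 1) : ℝ)) ≤ 1 / (c e : ℝ) - 1 / (x : ℝ) := by
  have hC := C1 h he
  have hce : 1 ≤ c e := le_trans he (h.le_self e)
  have hYe := h.YY_pos he
  have hYe' := h.YY_pos (l := e + 1) (by omega)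
  have hYlt := h.YY_lt_succ e
  have hC2 : c e * x * (YY c (e + 1) - YY c e) ≤ YY c e * YY c (e + 1) := by
    refine le_trans ?_ hC
    apply Nat.mul_le_mul_right
    apply Nat.mul_le_mul_left
    omega
  have hCR : (c e : ℝ) * x * ((YY c (e + 1) : ℝ) - YY c e) ≤ YY c e * YY c (e + 1) := by
    have : ((c e * x * (YY c (e + 1) - YY c e) : ℕ) : ℝ) ≤ ((YY c e * YY c (e + 1) : ℕ) : ℝ) := by
      exact_mod_cast hC2
    push_cast [Nat.cast_sub hYlt.le] at this
    exact this
  have p1 : (0 : ℝ) < c e := by exact_mod_cast hce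
  have p2 : (0 : ℝ) < x := by exact_mod_cast (lt_of_lt_of_le hce h1)
  have p3 : (0 : ℝ) < YY c e := by exact_mod_cast hYe
  have p4 : (0 : ℝ) < YY c (e + 1) := by exact_mod_cast hYe'
  have p5 : (c e : ℝ) ≤ x := by exact_mod_cast h1
  rw [Nat.cast_sub h1]
  have e1 : 1 / (YY c e : ℝ) - 1 / (YY c (e + 1) : ℝ) = ((YY c (e + 1) : ℝ) - YY c e) / (YY c e * YY c (e + 1)) := by
    field_simp
  have e2 : 1 / (c e : ℝ) - 1 / (x : ℝ) = ((x : ℝ) - c e) * (1 / (c e * x)) := by
    field_simp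
  rw [e1, e2]
  apply mul_le_mul_of_nonneg_left _ (by linarith)
  rw [div_le_div_iff₀ (by positivity) (by positivity)]
  linarith

theorem sum_CC (h : IsChi c) {l M : ℕ} (hl : 1 ≤ l) (hla : c l < a l) :
    ∑ y ∈ range M, (CC c a l y : ℝ) * v y ≤ 1 / (c l : ℝ) - 1 / (c (inv c (a l)) : ℝ) := by
  classical
  set e := inv c (a l) with he
  set S := (range M).filter (fun y => act c a l y) with hS
  have e1 : ∑ y ∈ range M, (CC c a l y : ℝ) * v y = ∑ y ∈ S, (lam l y : ℝ) * v y := by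
    rw [hS, Finset.sum_filter]
    apply Finset.sum_congr rfl
    intro y _
    unfold CC
    split_ifs <;> simp
  rw [e1]
  have hle : l ≤ e := (le_inv_iff h.strictMono h.zero).2 hla.le
  rcases Nat.eq_or_lt_of_le hle with h1 | h1
  · have : S = ∅ := by
      apply Finset.eq_empty_of_forall_notMem
      intro y hy
      rw [hS, Finset.mem_filter] at hy
      have := hy.2
      unfold act at this
      rw [← he, ← h1] at this
      omega
    rw [this, ← h1]
    simp
  · rcases S.eq_empty_or_nonempty with h2 | ⟨y0, hy0⟩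
    · rw [h2]
      have q1 : (0 : ℝ) < c l := by exact_mod_cast le_trans hl (h.le_self l)
      have q2 : (c l : ℝ) ≤ c e := by exact_mod_cast (h.strictMono h1).le
      have := one_div_le_one_div_of_le q1 q2
      simp only [Finset.sum_empty]
      linarith
    · rw [hS, Finset.mem_filter] at hy0
      obtain ⟨_, b1, b2, b3, b4, b5, b6, b7⟩ := hy0
      rw [← he] at b3 b6
      set q := qq c a l with hq
      have hX : c e + 1 ≤ a q := by
        have : c e ≤ c q := h.strictMono.monotone b6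
        omega
      apply KI h hl h1 hX
      intro y hy
      rw [hS, Finset.mem_filter] at hy
      obtain ⟨_, d1, d2, d3, d4, d5, d6, d7⟩ := hy
      rw [← he] at d3
      refine ⟨d2, d3, d4, ?_⟩
      -- `(e - l)(q+1) ≤ (q - l)(e+1)`
      have f1 : (e - l) * (q + 1) ≤ (q - l) * (e + 1) := by
        obtain ⟨u, hu⟩ := Nat.exists_eq_add_of_le hle
        obtain ⟨w, hw⟩ := Nat.exists_eq_add_of_le b6
        rw [hw, hu]
        have g1 : l + u - l = u := by omega
        have g2 : l + u + w - l = u + w := by omega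
        rw [g1, g2]
        nlinarith
      have f2 : ((e - l) * y) * (q + 1) < ((l + 1) * (e + 1) * a q) * (q + 1) := by
        calc ((e - l) * y) * (q + 1) = ((e - l) * (q + 1)) * y := by ring
          _ ≤ ((q - l) * (e + 1)) * y := Nat.mul_le_mul_right _ f1
          _ = ((q - l) * y) * (e + 1) := by ring
          _ < ((l + 1) * (q + 1) * a q) * (e + 1) := Nat.mul_lt_mul_of_pos_right d5 (by omega)
          _ = ((l + 1) * (e + 1) * a q) * (q + 1) := by ring
      exact Nat.lt_of_mul_lt_mul_right f2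

theorem sum_JJ (h : IsChi c) {l M : ℕ} (hl : 1 ≤ l) (hla : c l < a l) :
    ∑ y ∈ range M, (JJ c a l y : ℝ) * v y ≤ 1 / (c (inv c (a l)) : ℝ) - 1 / (a l : ℝ) := by
  classical
  set e := inv c (a l) with he
  have hle : l ≤ e := (le_inv_iff h.strictMono h.zero).2 hla.le
  obtain ⟨s1, s2⟩ := inv_spec h.strictMono h.zero (a l)
  rw [← he] at s1 s2
  refine le_trans ?_ (intercept h (by omega : 1 ≤ e) s1 s2)
  rw [← sum_v (h.YY_pos (by omega : 1 ≤ e)) (h.YY_lt_succ e).le, Finset.mul_sum]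
  have e1 : ∑ y ∈ range M, (JJ c a l y : ℝ) * v y =
      ∑ y ∈ (range M).filter (fun y => YY c e ≤ y ∧ y < YY c (e + 1)), ((a l - c e : ℕ) : ℝ) * v y := by
    rw [Finset.sum_filter]
    apply Finset.sum_congr rfl
    intro y _
    unfold JJ
    rw [← he]
    by_cases hy : YY c e ≤ y ∧ y < YY c (e + 1)
    · rw [if_pos ⟨hla, hy.1, hy.2⟩, if_pos hy]
    · rw [if_neg (fun hh => hy ⟨hh.2.1, hh.2.2⟩), if_neg hy]
      simp
  rw [e1]
  apply Finset.sum_le_sum_of_subset_of_nonneg
  · intro y hy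
    rw [Finset.mem_filter] at hy
    exact Finset.mem_Ico.2 hy.2
  · intro y _ _
    exact mul_nonneg (Nat.cast_nonneg _) (v_nonneg y)

theorem per_line (h : IsChi c) {l M : ℕ} (hl : 1 ≤ l) :
    ∑ y ∈ range M, ((CC c a l y + JJ c a l y : ℕ) : ℝ) * v y ≤
      if c l < a l then 1 / (c l : ℝ) - 1 / (a l : ℝ) else 0 := by
  classical
  split_ifs with hla
  · have e1 : ∑ y ∈ range M, ((CC c a l y + JJ c a l y : ℕ) : ℝ) * v y =
        ∑ y ∈ range M, (CC c a l y : ℝ) * v y + ∑ y ∈ range M, (JJ c a l y : ℝ) * v y := by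
      rw [← Finset.sum_add_distrib]
      apply Finset.sum_congr rfl
      intro y _
      push_cast; ring
    rw [e1]
    have h1 := sum_CC (a := a) (M := M) h hl hla
    have h2 := sum_JJ (a := a) (M := M) h hl hla
    linarith
  · have : ∑ y ∈ range M, ((CC c a l y + JJ c a l y : ℕ) : ℝ) * v y = 0 := by
      apply Finset.sum_eq_zero
      intro y _
      have e1 : CC c a l y = 0 := by
        unfold CC; rw [if_neg]; intro hh; exact hla hh.1
      have e2 : JJ c a l y = 0 := by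
        unfold JJ; rw [if_neg]; intro hh; exact hla hh.1
      rw [e1, e2]; simp
    rw [this]

/-- single-term comparison -/
theorem term_le (h : IsChi c) (ha0 : a 0 = 0) (hm : StrictMono a) {i n : ℕ} (hi : 1 ≤ i) (hin : i ≤ n) :
    1 / (a i : ℝ) - 1 / (c i : ℝ) ≤
      (∑ y ∈ range (c n), if a i ≤ y ∧ y < c i then v y else 0)
        - (if c i < a i then 1 / (c i : ℝ) - 1 / (a i : ℝ) else 0) := by
  have hai : 1 ≤ a i := le_trans hi (hm.id_le i)
  rw [← Finset.sum_filter]
  split_ifs with hla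
  · have h1 : (range (c n)).filter (fun y => a i ≤ y ∧ y < c i) = ∅ := by
      apply Finset.eq_empty_of_forall_notMem
      intro y hy
      rw [Finset.mem_filter] at hy
      omega
    rw [h1]
    simp
  · have h1 : (range (c n)).filter (fun y => a i ≤ y ∧ y < c i) = Ico (a i) (c i) := by
      ext y
      rw [Finset.mem_filter, Finset.mem_Ico, Finset.mem_range]
      have : c i ≤ c n := h.strictMono.monotone hin
      omega
    rw [h1, sum_v hai (by omega)]
    simp

/-- **Domination of all partial sums.** -/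
theorem partial_sums (h : IsChi c) (ha0 : a 0 = 0) (hm : StrictMono a)
    (ha : ∀ i j, (j + 1) * i ≤ a i + (j + 1) * a j) (n : ℕ) :
    ∑ i ∈ Ioc 0 n, 1 / (a i : ℝ) ≤ ∑ i ∈ Ioc 0 n, 1 / (c i : ℝ) := by
  classical
  have h1 : ∑ i ∈ Ioc 0 n, (1 / (a i : ℝ) - 1 / (c i : ℝ)) ≤
      ∑ i ∈ Ioc 0 n, ((∑ y ∈ range (c n), if a i ≤ y ∧ y < c i then v y else 0)
        - (if c i < a i then 1 / (c i : ℝ) - 1 / (a i : ℝ) else 0)) := by
    apply Finset.sum_le_sum
    intro i hi
    rw [Finset.mem_Ioc] at hi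
    exact term_le h ha0 hm hi.1 hi.2
  rw [Finset.sum_sub_distrib, Finset.sum_sub_distrib, Finset.sum_comm] at h1
  have h2 : ∑ y ∈ range (c n), (∑ i ∈ Ioc 0 n, if a i ≤ y ∧ y < c i then v y else 0) ≤
      ∑ y ∈ range (c n), ((inv a y - inv c y : ℕ) : ℝ) * v y := by
    apply Finset.sum_le_sum
    intro y _
    rw [← Finset.sum_filter, Finset.sum_const, nsmul_eq_mul]
    apply mul_le_mul_of_nonneg_right _ (v_nonneg y)
    have hsub : (Ioc 0 n).filter (fun i => a i ≤ y ∧ y < c i) ⊆ Ioc (inv c y) (inv a y) := by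
      intro i hi
      rw [Finset.mem_filter] at hi
      rw [Finset.mem_Ioc]
      exact ⟨(inv_lt_iff h.strictMono h.zero).2 hi.2.2, (le_inv_iff hm ha0).2 hi.2.1⟩
    have hcard := Finset.card_le_card hsub
    rw [Nat.card_Ioc] at hcard
    exact_mod_cast hcard
  have h3 : ∑ y ∈ range (c n), ((inv a y - inv c y : ℕ) : ℝ) * v y ≤
      ∑ y ∈ range (c n), ((∑ l ∈ Ioc 0 n, (CC c a l y + JJ c a l y) : ℕ) : ℝ) * v y := by
    apply Finset.sum_le_sum
    intro y hy
    apply mul_le_mul_of_nonneg_right _ (v_nonneg y)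
    have := pointwise h ha0 hm ha (Finset.mem_range.1 hy)
    exact_mod_cast this
  have h4 : ∑ y ∈ range (c n), ((∑ l ∈ Ioc 0 n, (CC c a l y + JJ c a l y) : ℕ) : ℝ) * v y =
      ∑ l ∈ Ioc 0 n, ∑ y ∈ range (c n), ((CC c a l y + JJ c a l y : ℕ) : ℝ) * v y := by
    rw [Finset.sum_comm]
    apply Finset.sum_congr rfl
    intro y _
    rw [Nat.cast_sum, Finset.sum_mul]
  have h5 : ∑ l ∈ Ioc 0 n, ∑ y ∈ range (c n), ((CC c a l y + JJ c a l y : ℕ) : ℝ) * v y ≤
      ∑ l ∈ Ioc 0 n, (if c l < a l then 1 / (c l : ℝ) - 1 / (a l : ℝ) else 0) := by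
    apply Finset.sum_le_sum
    intro l hl
    rw [Finset.mem_Ioc] at hl
    exact per_line h hl.1
  linarith

end Pool.Agent.Lib.MP_4856b2_nt

end

/-! merged from Chi -/

section

/-!
The sequence `χ` of the problem, its existence, and summability of its reciprocals.
-/

namespace Pool.Agent.Lib.MP_4856b2_nt

open Finset

variable {c a : ℕ → ℕ}

/-- a concrete realisation of the sequence -/
def chiN (i : ℕ) : ℕ := (Finset.univ : Finset (Fin i)).sup (fun j => (j.1 + 1) * (i - chiN j.1))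
termination_by i
decreasing_by exact j.2

theorem chiN_eq (i : ℕ) : chiN i = (Finset.range i).sup (fun j => (j + 1) * (i - chiN j)) := by
  rw [chiN]
  apply le_antisymm
  · apply Finset.sup_le
    intro j _
    exact Finset.le_sup (f := fun j => (j + 1) * (i - chiN j)) (Finset.mem_range.2 j.2)
  · apply Finset.sup_le
    intro j hj
    exact Finset.le_sup (f := fun j : Fin i => (j.1 + 1) * (i - chiN j.1)) (Finset.mem_univ ⟨j, Finset.mem_range.1 hj⟩)

theorem chiN_zero : chiN 0 = 0 := by rw [chiN_eq]; simp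

theorem chiN_one : chiN 1 = 1 := by rw [chiN_eq]; simp [chiN_zero]

theorem le_chiN (i : ℕ) : i ≤ chiN i := by
  rcases Nat.eq_zero_or_pos i with rfl | hi
  · exact Nat.zero_le _
  · rw [chiN_eq i]
    have := Finset.le_sup (f := fun j => (j + 1) * (i - chiN j)) (Finset.mem_range.2 hi)
    simpa [chiN_zero] using this

/-- The recursion of the problem. -/
def Rec (χ : ℕ → ℤ) : Prop :=
  χ 1 = 1 ∧ ∀ i : ℕ, 1 < i →
    IsGreatest {m : ℤ | ∃ j : ℕ, 1 ≤ j ∧ j ≤ i - 1 ∧ m = ((j : ℤ) + 1) * ((i : ℤ) - χ j)} (χ i)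

theorem Rec_chiN : Rec (fun i => (chiN i : ℤ)) := by
  constructor
  · simp [chiN_one]
  · intro i hi
    have h2 : ∀ j, j < i → ((j : ℤ) + 1) * ((i : ℤ) - chiN j) ≤ chiN i := by
      intro j hj
      have h1 : (j + 1) * (i - chiN j) ≤ chiN i := by
        conv_rhs => rw [chiN_eq i]
        exact Finset.le_sup (f := fun j => (j + 1) * (i - chiN j)) (Finset.mem_range.2 hj)
      rcases le_total (chiN j) i with h3 | h3
      · have : (((j + 1) * (i - chiN j) : ℕ) : ℤ) ≤ chiN i := by exact_mod_cast h1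
        rw [Nat.cast_mul, Nat.cast_sub h3] at this
        push_cast at this
        exact this
      · have h4 : ((i : ℤ) - chiN j) ≤ 0 := by
          have : (i : ℤ) ≤ chiN j := by exact_mod_cast h3
          linarith
        have h5 : ((j : ℤ) + 1) * ((i : ℤ) - chiN j) ≤ 0 :=
          mul_nonpos_of_nonneg_of_nonpos (by positivity) h4
        have h6 : (0 : ℤ) ≤ chiN i := by positivity
        linarith
    constructor
    · obtain ⟨j, hj, hje⟩ := Finset.exists_mem_eq_sup (Finset.range i) ⟨0, Finset.mem_range.2 (by omega)⟩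
        (fun j => (j + 1) * (i - chiN j))
      rw [← chiN_eq i] at hje
      rw [Finset.mem_range] at hj
      rcases Nat.eq_zero_or_pos j with h0 | h0
      · -- then `χ i = i`, but `j = 1` gives at least as much
        subst h0
        simp only [zero_add, chiN_zero, Nat.sub_zero, one_mul] at hje
        refine ⟨1, le_rfl, by omega, ?_⟩
        have h3 := h2 1 hi
        show ((chiN i : ℕ) : ℤ) = (((1 : ℕ) : ℤ) + 1) * ((i : ℤ) - ((chiN 1 : ℕ) : ℤ))
        rw [chiN_one] at h3 ⊢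
        push_cast at h3 ⊢
        have h4 : (chiN i : ℤ) = i := by exact_mod_cast hje
        have h5 : (2 : ℤ) ≤ i := by exact_mod_cast hi
        linarith
      · refine ⟨j, h0, by omega, ?_⟩
        have h3 : chiN j ≤ i := by
          by_contra hcon
          have h4 : i - chiN j = 0 := by omega
          rw [h4, mul_zero] at hje
          have := le_chiN i
          omega
        show ((chiN i : ℕ) : ℤ) = _
        rw [hje, Nat.cast_mul, Nat.cast_sub h3]
        push_cast
        rfl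
    · rintro m ⟨j, hj1, hj2, rfl⟩
      exact h2 j (by omega)

theorem Rec.le_self {χ : ℕ → ℤ} (h : Rec χ) {i : ℕ} (hi : 1 ≤ i) : (i : ℤ) ≤ χ i := by
  rcases Nat.lt_or_ge 1 i with h1 | h1
  · have h2 := (h.2 i h1).2 ⟨1, le_rfl, by omega, rfl⟩
    rw [h.1] at h2
    push_cast at h2
    have h5 : (2 : ℤ) ≤ i := by exact_mod_cast h1
    linarith
  · have : i = 1 := by omega
    subst this
    rw [h.1]; norm_num

/-- natural-number version of a sequence, with value `0` at `0` -/
def nat (χ : ℕ → ℤ) (i : ℕ) : ℕ := if i = 0 then 0 else (χ i).toNat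

theorem nat_zero (χ : ℕ → ℤ) : nat χ 0 = 0 := by simp [nat]

theorem nat_cast {χ : ℕ → ℤ} {i : ℕ} (hi : 1 ≤ i) (h : (i : ℤ) ≤ χ i) : ((nat χ i : ℕ) : ℤ) = χ i := by
  unfold nat
  rw [if_neg (by omega)]
  exact Int.toNat_of_nonneg (by omega)

theorem Rec.isChi {χ : ℕ → ℤ} (h : Rec χ) : IsChi (nat χ) := by
  have hc : ∀ i, 1 ≤ i → ((nat χ i : ℕ) : ℤ) = χ i := fun i hi => nat_cast hi (h.le_self hi)
  have hle : ∀ i, i ≤ nat χ i := by
    intro i
    rcases Nat.eq_zero_or_pos i with rfl | hi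
    · exact Nat.zero_le _
    · have h1 := h.le_self hi
      rw [← hc i hi] at h1
      exact_mod_cast h1
  refine ⟨nat_zero χ, ?_, ?_⟩
  · intro i j
    rcases Nat.eq_zero_or_pos j with rfl | hj
    · simpa [nat_zero] using hle i
    · rcases Nat.lt_or_ge j i with hji | hji
      · have h2 := (h.2 i (by omega)).2 ⟨j, hj, by omega, rfl⟩
        rw [← hc i (by omega), ← hc j hj] at h2
        have h3 : (((j + 1) * i : ℕ) : ℤ) ≤ ((nat χ i + (j + 1) * nat χ j : ℕ) : ℤ) := by
          push_cast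
          linarith
        exact_mod_cast h3
      · have h2 := hle j
        have h3 : (j + 1) * i ≤ (j + 1) * nat χ j := Nat.mul_le_mul_left _ (by omega)
        omega
  · intro i hi
    rcases Nat.lt_or_ge 1 i with h1 | h1
    · obtain ⟨j, hj1, hj2, hje⟩ := (h.2 i h1).1
      refine ⟨j, by omega, ?_⟩
      rw [← hc i (by omega), ← hc j hj1] at hje
      have h3 : (((j + 1) * i : ℕ) : ℤ) = ((nat χ i + (j + 1) * nat χ j : ℕ) : ℤ) := by
        push_cast
        linarith
      exact_mod_cast h3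
    · have : i = 1 := by omega
      subst this
      refine ⟨0, by omega, ?_⟩
      have h2 := hc 1 le_rfl
      rw [h.1] at h2
      have h3 : nat χ 1 = 1 := by exact_mod_cast h2
      rw [h3, nat_zero]

/-- lower bound of order `e^{3/2}` -/
theorem IsChi.lower (h : IsChi c) {e : ℕ} (he : 30 ≤ e) : e ^ 3 ≤ 4 * c e ^ 2 := by
  have h1 := h.growth le_rfl he
  have h2 : c 30 = 126 := by rw [h.table 30 (by omega)]; rfl
  rw [h2] at h1
  omega

theorem IsChi.summable (h : IsChi c) : Summable (fun k : ℕ => 1 / (c (k + 1) : ℝ)) := by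
  have h0 : Summable (fun k : ℕ => 1 / (c k : ℝ)) := by
    have hb : Summable (fun k : ℕ => 2 * (1 / (k : ℝ) ^ (3 / 2 : ℝ))) :=
      ((Real.summable_one_div_nat_rpow).2 (by norm_num)).mul_left 2
    apply Summable.of_norm_bounded_eventually_nat hb
    filter_upwards [Filter.eventually_ge_atTop 30] with e he
    have h1 := h.lower he
    have h2 : (0 : ℝ) < e := by
      have : 0 < e := by omega
      exact_mod_cast this
    have h3 : (0 : ℝ) < c e := by
      have : 0 < c e := lt_of_lt_of_le (by omega) (h.le_self e)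
      exact_mod_cast this
    rw [Real.norm_of_nonneg (by positivity)]
    have h4 : (e : ℝ) ^ 3 ≤ 4 * (c e : ℝ) ^ 2 := by exact_mod_cast h1
    have h5 : ((e : ℝ) ^ (3 / 2 : ℝ)) ^ 2 = (e : ℝ) ^ 3 := by
      rw [← Real.rpow_natCast, ← Real.rpow_mul h2.le, ← Real.rpow_natCast]
      norm_num
    have h6 : (e : ℝ) ^ (3 / 2 : ℝ) ≤ 2 * c e := by
      apply le_of_sq_le_sq _ (by positivity)
      rw [h5]
      linarith
    have h7 : (0 : ℝ) < (e : ℝ) ^ (3 / 2 : ℝ) := by positivity
    rw [mul_one_div, div_le_div_iff₀ h3 h7]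
    linarith
  exact (summable_nat_add_iff 1).2 h0

theorem range_eq_Ioc (f : ℕ → ℝ) (n : ℕ) : ∑ k ∈ range n, f (k + 1) = ∑ i ∈ Ioc 0 n, f i := by
  induction n with
  | zero => simp
  | succ n ih =>
    rw [Finset.sum_range_succ, ih, ← Finset.insert_Ioc_right_eq_Ioc_add_one (Nat.zero_le n),
      Finset.sum_insert (by simp)]
    ring

/-- Q2 for the natural-number version -/
theorem Q2_nat (h : IsChi c) (ha0 : a 0 = 0) (hm : StrictMono a)
    (ha : ∀ i j, (j + 1) * i ≤ a i + (j + 1) * a j) :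
    (∀ n : ℕ, ∑ k ∈ range n, 1 / (a (k + 1) : ℝ) ≤ ∑ k ∈ range n, 1 / (c (k + 1) : ℝ)) ∧
    Summable (fun k : ℕ => 1 / (a (k + 1) : ℝ)) ∧
    ∑' k : ℕ, 1 / (a (k + 1) : ℝ) ≤ ∑' k : ℕ, 1 / (c (k + 1) : ℝ) := by
  have h1 : ∀ n : ℕ, ∑ k ∈ range n, 1 / (a (k + 1) : ℝ) ≤ ∑ k ∈ range n, 1 / (c (k + 1) : ℝ) := by
    intro n
    rw [range_eq_Ioc (fun i => 1 / (a i : ℝ)) n, range_eq_Ioc (fun i => 1 / (c i : ℝ)) n]
    exact partial_sums h ha0 hm ha n
  have h2 : ∀ n : ℕ, ∑ k ∈ range n, 1 / (a (k + 1) : ℝ) ≤ ∑' k : ℕ, 1 / (c (k + 1) : ℝ) := by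
    intro n
    exact le_trans (h1 n) (h.summable.sum_le_tsum _ (fun k _ => by positivity))
  have h3 : Summable (fun k : ℕ => 1 / (a (k + 1) : ℝ)) :=
    summable_of_sum_range_le (fun k => by positivity) h2
  exact ⟨h1, h3, Real.tsum_le_of_sum_range_le (fun k => by positivity) h2⟩

end Pool.Agent.Lib.MP_4856b2_nt

end

/-! merged from ASeq -/

section

/-!
Every A-sequence satisfies the chi inequality (Levine and O'Sullivan); we give a proof.
-/

namespace Pool.Agent.Lib.MP_4856b2_nt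

open Finset

variable {a : ℕ → ℕ}

/-- Here `a 0 = 0` is a convention; the terms of the sequence are `a 1 < a 2 < …`. -/
structure IsA (a : ℕ → ℕ) : Prop where
  zero : a 0 = 0
  mono : StrictMono a
  sumfree : ∀ k, 1 ≤ k → ∀ s : Finset ℕ, 2 ≤ s.card → (∀ j ∈ s, 1 ≤ j ∧ j < k) → ∑ j ∈ s, a j ≠ a k

/-- partial sums -/
def sg (a : ℕ → ℕ) (r : ℕ) : ℕ := ∑ k ∈ Ioc 0 r, a k

theorem sg_split (a : ℕ → ℕ) {r r' : ℕ} (h : r ≤ r') : sg a r' = sg a r + ∑ k ∈ Ioc r r', a k := by
  unfold sg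
  rw [← Finset.sum_union]
  · congr 1
    ext x
    simp only [Finset.mem_union, Finset.mem_Ioc]
    omega
  · rw [Finset.disjoint_left]
    intro x hx hx'
    rw [Finset.mem_Ioc] at hx hx'
    omega

theorem sg_succ (a : ℕ → ℕ) (r : ℕ) : sg a (r + 1) = sg a r + a (r + 1) := by
  rw [sg_split a (show r ≤ r + 1 by omega), ← Finset.insert_Ioc_right_eq_Ioc_add_one le_rfl]
  simp

theorem IsA.sg_le (h : IsA a) (j : ℕ) : 2 * sg a j + j * (j - 1) ≤ 2 * (j * a j) := by
  induction j with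
  | zero => simp [sg]
  | succ j ih =>
    rw [sg_succ]
    have h1 : a j + 1 ≤ a (j + 1) := h.mono (Nat.lt_succ_self j)
    have h2 : j * (a j + 1) ≤ j * a (j + 1) := Nat.mul_le_mul_left _ h1
    rcases j with _ | j
    · simp [sg]
    · simp only [Nat.add_sub_cancel] at ih ⊢
      nlinarith

/-- no term is a sum of a term and a block of consecutive terms not containing it -/
theorem IsA.no_rep (h : IsA a) {m m' r r' : ℕ} (hm : 1 ≤ m) (hrr : r < r') (hmr : m ≤ r ∨ r' < m)
    (hm' : 1 ≤ m') : a m' ≠ a m + ∑ k ∈ Ioc r r', a k := by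
  intro he
  have hnot : m ∉ Ioc r r' := by
    rw [Finset.mem_Ioc]; omega
  have hs : ∑ k ∈ insert m (Ioc r r'), a k = a m' := by
    rw [Finset.sum_insert hnot, he]
  have hcard : 2 ≤ (insert m (Ioc r r')).card := by
    rw [Finset.card_insert_of_notMem hnot, Nat.card_Ioc]
    omega
  refine h.sumfree m' hm' _ hcard ?_ hs
  intro j hj
  have hj1 : 1 ≤ j := by
    rw [Finset.mem_insert, Finset.mem_Ioc] at hj
    omega
  refine ⟨hj1, ?_⟩
  rw [← h.mono.lt_iff_lt, ← hs]
  -- the sum is larger than a single term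
  obtain ⟨x, hx, hxj⟩ : ∃ x ∈ insert m (Ioc r r'), x ≠ j := by
    by_contra hcon
    push Not at hcon
    have : (insert m (Ioc r r')).card ≤ 1 := Finset.card_le_one.2 (fun u hu w hw => by rw [hcon u hu, hcon w hw])
    omega
  have hx1 : 1 ≤ x := by
    rw [Finset.mem_insert, Finset.mem_Ioc] at hx
    omega
  have hax : 0 < a x := lt_of_lt_of_le hx1 (h.mono.id_le x)
  have h2 : a j + a x ≤ ∑ k ∈ insert m (Ioc r r'), a k := by
    have h3 : ({j, x} : Finset ℕ) ⊆ insert m (Ioc r r') := by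
      intro u hu
      rw [Finset.mem_insert, Finset.mem_singleton] at hu
      rcases hu with rfl | rfl
      · exact hj
      · exact hx
    have h4 := Finset.sum_le_sum_of_subset (f := a) h3
    rw [Finset.sum_pair hxj.symm] at h4
    exact h4
  omega

theorem IsA.chi_ineq (h : IsA a) (i j : ℕ) : (j + 1) * i ≤ a i + (j + 1) * a j := by
  classical
  rcases Nat.lt_or_ge j i with hji | hij
  swap
  · have h1 := h.mono.id_le j
    simp only [id] at h1
    have : (j + 1) * i ≤ (j + 1) * a j := Nat.mul_le_mul_left _ (by omega)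
    omega
  rcases Nat.eq_zero_or_pos j with rfl | hj
  · have h1 := h.mono.id_le i
    simp only [id] at h1
    rw [h.zero]; omega
  -- the set of pairs
  set P : Finset (Σ _ : ℕ, ℕ) := (range (j + 1)).sigma (fun r => Icc 1 r ∪ Ioc j i) with hP
  have hPmem : ∀ p ∈ P, p.1 ≤ j ∧ 1 ≤ p.2 ∧ (p.2 ≤ p.1 ∨ j < p.2) ∧ p.2 ≤ i := by
    intro p hp
    rw [hP, Finset.mem_sigma, Finset.mem_union, Finset.mem_range, Finset.mem_Icc, Finset.mem_Ioc] at hp
    omega
  have hcard : 2 * P.card = 2 * ((j + 1) * (i - j)) + (j + 1) * j := by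
    rw [hP, Finset.card_sigma]
    have h1 : ∀ r ∈ range (j + 1), (Icc 1 r ∪ Ioc j i).card = r + (i - j) := by
      intro r hr
      rw [Finset.mem_range] at hr
      rw [Finset.card_union_of_disjoint, Nat.card_Icc, Nat.card_Ioc]
      · omega
      · rw [Finset.disjoint_left]
        intro x hx hx'
        rw [Finset.mem_Icc] at hx
        rw [Finset.mem_Ioc] at hx'
        omega
    rw [Finset.sum_congr rfl h1, Finset.sum_add_distrib, Finset.sum_const, Finset.card_range, smul_eq_mul]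
    have h2 := Finset.sum_range_id_mul_two (j + 1)
    simp only [Nat.add_sub_cancel] at h2
    omega
  -- the map
  set φ : (Σ _ : ℕ, ℕ) → ℕ := fun p => a p.2 + (sg a j - sg a p.1) with hφ
  have hsg : ∀ r, r ≤ j → sg a r ≤ sg a j := by
    intro r hr
    rw [sg_split a hr]; exact Nat.le_add_right _ _
  have hinj : Set.InjOn φ P := by
    rintro ⟨r, m⟩ hp ⟨r', m'⟩ hp' he
    obtain ⟨b1, b2, b3, b4⟩ := hPmem _ hp
    obtain ⟨d1, d2, d3, d4⟩ := hPmem _ hp'
    simp only [hφ] at he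
    simp only at b1 b2 b3 b4 d1 d2 d3 d4
    have e1 := hsg r b1
    have e2 := hsg r' d1
    rcases Nat.lt_trichotomy r r' with hlt | heq | hgt
    · exfalso
      have e3 := sg_split a hlt.le
      exact h.no_rep b2 hlt (by omega) d2 (by omega : a m' = a m + ∑ k ∈ Ioc r r', a k)
    · subst heq
      have e4 : a m = a m' := by omega
      have := h.mono.injective e4
      subst this
      rfl
    · exfalso
      have e3 := sg_split a hgt.le
      exact h.no_rep d2 hgt (by omega) b2 (by omega : a m = a m' + ∑ k ∈ Ioc r' r, a k)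
  have himg : P.image φ ⊆ Icc (a 1) (a i + sg a j) := by
    intro x hx
    rw [Finset.mem_image] at hx
    obtain ⟨p, hp, rfl⟩ := hx
    obtain ⟨b1, b2, b3, b4⟩ := hPmem _ hp
    rw [Finset.mem_Icc]
    simp only [hφ]
    have e1 : a 1 ≤ a p.2 := h.mono.monotone b2
    have e2 : a p.2 ≤ a i := h.mono.monotone b4
    omega
  have hc1 := Finset.card_le_card himg
  rw [Finset.card_image_of_injOn hinj, Nat.card_Icc] at hc1
  have hs := h.sg_le j
  have haj : j ≤ a j := h.mono.id_le j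
  have ha1 : 1 ≤ a 1 := h.mono.id_le 1
  obtain ⟨k, rfl⟩ := Nat.exists_eq_add_of_lt hji
  obtain ⟨w, rfl⟩ : ∃ w, j = w + 1 := ⟨j - 1, by omega⟩
  simp only [Nat.add_sub_cancel] at hs
  have e5 : w + 1 + k + 1 - (w + 1) = k + 1 := by omega
  rw [e5] at hcard
  have e6 : 2 * P.card ≤ 2 * (a (w + 1 + k + 1) + sg a (w + 1)) := by omega
  nlinarith

end Pool.Agent.Lib.MP_4856b2_nt

end

/-! merged from Final -/

section

/-!
From integer sequences indexed by `k ≥ 1` to the internal conventions.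
-/

namespace Pool.Agent.Lib.MP_4856b2_nt

open Finset

theorem le_of_incr {a : ℕ → ℤ} (h1 : 1 ≤ a 1) (h2 : ∀ k : ℕ, 1 ≤ k → a k < a (k + 1)) {i : ℕ} (hi : 1 ≤ i) :
    (i : ℤ) ≤ a i := by
  induction i, hi using Nat.le_induction with
  | base => simpa using h1
  | succ i hi ih =>
    have := h2 i hi
    push_cast
    omega

theorem nat_strictMono {a : ℕ → ℤ} (h1 : 1 ≤ a 1) (h2 : ∀ k : ℕ, 1 ≤ k → a k < a (k + 1)) :
    StrictMono (nat a) := by
  apply strictMono_nat_of_lt_succ
  intro k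
  have e1 := nat_cast (χ := a) (i := k + 1) (by omega) (le_of_incr h1 h2 (by omega))
  rcases Nat.eq_zero_or_pos k with rfl | hk
  · rw [nat_zero]
    have := le_of_incr h1 h2 (le_refl 1)
    simp only [zero_add] at e1 ⊢
    omega
  · have e2 := nat_cast (χ := a) (i := k) hk (le_of_incr h1 h2 hk)
    have := h2 k hk
    omega

theorem cast_term {a : ℕ → ℤ} (h : ∀ i : ℕ, 1 ≤ i → (i : ℤ) ≤ a i) (k : ℕ) :
    1 / ((nat a (k + 1) : ℕ) : ℝ) = 1 / (a (k + 1) : ℝ) := by
  have e := nat_cast (χ := a) (i := k + 1) (by omega) (h (k + 1) (by omega))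
  have e2 : ((nat a (k + 1) : ℕ) : ℝ) = (a (k + 1) : ℝ) := by exact_mod_cast congrArg (Int.cast : ℤ → ℝ) e
  rw [e2]

theorem Q2_int {χ : ℕ → ℤ} (hχ : Rec χ) {a : ℕ → ℤ} (h1 : 1 ≤ a 1)
    (h2 : ∀ k : ℕ, 1 ≤ k → a k < a (k + 1))
    (h3 : ∀ i j, (j + 1) * i ≤ nat a i + (j + 1) * nat a j) :
    (∀ n : ℕ, ∑ k ∈ Finset.range n, 1 / (a (k + 1) : ℝ) ≤ ∑ k ∈ Finset.range n, 1 / (χ (k + 1) : ℝ)) ∧
    Summable (fun k : ℕ => 1 / (a (k + 1) : ℝ)) ∧
    ∑' k : ℕ, 1 / (a (k + 1) : ℝ) ≤ ∑' k : ℕ, 1 / (χ (k + 1) : ℝ) := by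
  have h := Q2_nat hχ.isChi (nat_zero a) (nat_strictMono h1 h2) h3
  simp only [cast_term (fun i hi => le_of_incr h1 h2 hi), cast_term (fun i hi => hχ.le_self hi)] at h
  exact h

theorem summable_int {χ : ℕ → ℤ} (hχ : Rec χ) : Summable (fun k : ℕ => 1 / (χ (k + 1) : ℝ)) := by
  have h := hχ.isChi.summable
  simp only [cast_term (fun i hi => hχ.le_self hi)] at h
  exact h

theorem chi_ineq_nat {a : ℕ → ℤ} (h1 : 1 ≤ a 1) (h2 : ∀ k : ℕ, 1 ≤ k → a k < a (k + 1))
    (h3 : ∀ i j : ℕ, 1 ≤ i → 1 ≤ j → ((j : ℤ) + 1) * (i : ℤ) ≤ ((j : ℤ) + 1) * a j + a i) (i j : ℕ) :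
    (j + 1) * i ≤ nat a i + (j + 1) * nat a j := by
  rcases Nat.eq_zero_or_pos i with rfl | hi
  · simp
  rcases Nat.eq_zero_or_pos j with rfl | hj
  · have e := (nat_strictMono h1 h2).id_le i
    simp only [id] at e
    rw [nat_zero]; omega
  have e1 := nat_cast (χ := a) (i := i) hi (le_of_incr h1 h2 hi)
  have e2 := nat_cast (χ := a) (i := j) hj (le_of_incr h1 h2 hj)
  have h := h3 i j hi hj
  rw [← e1, ← e2] at h
  have h4 : (((j + 1) * i : ℕ) : ℤ) ≤ ((nat a i + (j + 1) * nat a j : ℕ) : ℤ) := by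
    push_cast
    linarith
  exact_mod_cast h4

theorem isA_nat {a : ℕ → ℤ} (h1 : 1 ≤ a 1) (h2 : ∀ k : ℕ, 1 ≤ k → a k < a (k + 1))
    (h3 : ∀ k : ℕ, 1 ≤ k → ∀ s : Finset ℕ, 2 ≤ s.card → (∀ j ∈ s, 1 ≤ j ∧ j < k) → ∑ j ∈ s, a j ≠ a k) :
    IsA (nat a) := by
  refine ⟨nat_zero a, nat_strictMono h1 h2, ?_⟩
  intro k hk s hs hsk he
  apply h3 k hk s hs hsk
  rw [← nat_cast (χ := a) hk (le_of_incr h1 h2 hk), ← he, Nat.cast_sum]
  apply Finset.sum_congr rfl
  intro j hj
  have := (hsk j hj).1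
  exact (nat_cast (χ := a) this (le_of_incr h1 h2 this)).symm

end Pool.Agent.Lib.MP_4856b2_nt

end

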